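import Pool.Agent.W428.MOT.EFinal

/-!
# Short forms of the definitions of the project ME

The same objects as `zetaMu`, `geoMu`, `ratRingMu`, through definitions over a general ring.
-/

set_option autoImplicit false

namespace Pool.Agent.W428.MOT

open MvPolynomial

section

variable {R : Type} [CommRing R]

/-- The power series `1 / (1 - u ^ a T ^ b)`, for `b > 0`. -/
noncomputable def geoR (u : Rˣ) (a b : ℤ) : PowerSeries R :=
  PowerSeries.invOfUnit (1 - PowerSeries.C ((u ^ a : Rˣ) : R) * PowerSeries.X ^ b.toNat) 1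

/-- `z` lies in the subring of `R[[T]]` generated by `R`, by `T` and by the power series
`1 / (1 - u ^ a T ^ b)` for `(a, b) ∈ S`. -/
def InRat (u : Rˣ) (S : Set (ℤ × ℤ)) (z : PowerSeries R) : Prop :=
  z ∈ Algebra.adjoin R ({PowerSeries.X} ∪ {g | ∃ p ∈ S, g = geoR u p.1 p.2})

/-- The power series `∑_{N ≥ 1} c(N) u ^ (- n N) T ^ N`. -/
noncomputable def genR (n : ℕ) (u : Rˣ) (c : (N : ℕ) → 0 < N → R) : PowerSeries R :=
  PowerSeries.mk fun N => if h : 0 < N then c N h * ((u ^ (-((n * N : ℕ) : ℤ)) : Rˣ) : R) else 0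

end

section

variable {k : Type} [Field k] {n : ℕ}

/-- The class of the jets `X_{N,1}` with their action of `μ_N`. -/
noncomputable def jetCls (f : MvPolynomial (Fin n) k) (N : ℕ) (h : 0 < N) : K0Mu f :=
  K0Mu.mk (diagVar (jetValid f N h))

/-- The equivariant motivic zeta function `Z_f(T) = ∑_{N ≥ 1} [X_{N,1}] 𝕃 ^ (- n N) T ^ N`. -/
noncomputable def zetaE (f : MvPolynomial (Fin n) k) : PowerSeries (MKMu f) :=
  genR n (LuMu f) fun N h => algebraMap (K0Mu f) (MKMu f) (jetCls f N h)

theorem zetaE_eq (f : MvPolynomial (Fin n) k) : zetaE f = zetaMu f := rfl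

theorem inRat_iff (f : MvPolynomial (Fin n) k) (S : Set (ℤ × ℤ)) (z : PowerSeries (MKMu f)) :
    InRat (LuMu f) S z ↔ z ∈ ratRingMu f S := Iff.rfl

end

end Pool.Agent.W428.MOT
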