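import Pool.Agent.W428.MOT.Tools
import Pool.Agent.W426.SM.Stm
import Pool.Agent.H628R4.TP.Defs

/-!
# Project MT: statements of the parts (nothing is proved here)

The motivic monodromy conjecture for `f = x ^ A * (∑_j c_j x ^ m_j) ^ e`, the exponent vectors
`m_j` affinely independent, and, for every variable `x_i`, `x_i ∣ f` or no `m_j i` equals `1`.
-/

set_option autoImplicit false

namespace Pool.Agent.W428.MOT

open MvPolynomial
open Pool.Agent.W426.SM (AffInd gord ford IsRay face)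

/-! ### Combinatorial data -/

/-- the monomials of minimal `u`-weight -/
noncomputable def amin {n r : ℕ} (m : Fin r → Fin n → ℕ) (u : Fin n → ℕ) : Finset (Fin r) :=
  Finset.univ.filter fun j => ∑ i, u i * m j i = gord m u

/-- the coordinates in `J` on which neither `x ^ A` nor the monomials in `τ` depend -/
def free {n r : ℕ} (A : Fin n → ℕ) (m : Fin r → Fin n → ℕ) (J : Finset (Fin n))
    (τ : Finset (Fin r)) : Finset (Fin n) :=
  J.filter fun i => A i = 0 ∧ ∀ j ∈ τ, m j i = 0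

/-- the vectors with support `J` -/
def Adm {n : ℕ} (J : Finset (Fin n)) (u : Fin n → ℕ) : Prop := ∀ i, u i ≠ 0 ↔ i ∈ J

instance {n : ℕ} (J : Finset (Fin n)) : DecidablePred (Adm J) := fun u =>
  inferInstanceAs (Decidable (∀ i, u i ≠ 0 ↔ i ∈ J))

/-- the weight of `u`, in the variable `y = 𝕃⁻¹`; the value `N + 1` of a free coordinate means
`≥ N + 1` -/
noncomputable def wt {n r : ℕ} (A : Fin n → ℕ) (m : Fin r → Fin n → ℕ) (J : Finset (Fin n))
    (τ : Finset (Fin r)) (N : ℕ) (u : Fin n → ℕ) : Polynomial ℤ :=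
  ∏ i, if i ∈ free A m J τ then
      (if u i ≤ N then (1 - Polynomial.X) * Polynomial.X ^ u i else Polynomial.X ^ (N + 1))
    else Polynomial.X ^ u i

/-- the sum of the weights of the `u` in `[0, N + 1] ^ n` with support `J`, of type `τ` and with
`ford u = M` -/
noncomputable def cp {n r : ℕ} (A : Fin n → ℕ) (m : Fin r → Fin n → ℕ) (e : ℕ)
    (J : Finset (Fin n)) (τ : Finset (Fin r)) (N M : ℕ) : Polynomial ℤ :=
  ∑ u ∈ (Fintype.piFinset fun _ : Fin n => Finset.range (N + 2)).filter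
    (fun u => Adm J u ∧ amin m u = τ ∧ ford A m e u = M), wt A m J τ N u

/-- the counting series of `Q`: the coefficient of `T ^ M y ^ d` is the number of the `u ∈ Q` with
`φ u = M` and `∑ u_i = d` -/
noncomputable def Phi {n : ℕ} (φ : (Fin n → ℕ) → ℕ) (Q : Set (Fin n → ℕ)) :
    PowerSeries (PowerSeries ℤ) :=
  PowerSeries.mk fun M => PowerSeries.mk fun d =>
    (({u | u ∈ Q ∧ φ u = M ∧ ∑ i, u i = d} : Set (Fin n → ℕ)).ncard : ℤ)

/-- (CP1) saturation. -/
def S_CP1 : Prop :=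
  ∀ {n r : ℕ} (A : Fin n → ℕ) (m : Fin r → Fin n → ℕ) (e : ℕ) (J : Finset (Fin n))
    (τ : Finset (Fin r)), 0 < r → 0 < e → ∀ N M : ℕ, M ≤ N →
    cp A m e J τ N M = cp A m e J τ M M

/-- (CP2) the counting series and the polynomials `cp`. -/
def S_CP2 : Prop :=
  ∀ {n r : ℕ} (A : Fin n → ℕ) (m : Fin r → Fin n → ℕ) (e : ℕ) (J : Finset (Fin n))
    (τ : Finset (Fin r)), 0 < r → 0 < e → ∀ M : ℕ,
    (1 - PowerSeries.X) ^ (free A m J τ).card *
        PowerSeries.coeff M (Phi (ford A m e) {u | Adm J u ∧ amin m u = τ}) =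
      ((cp A m e J τ M M : Polynomial ℤ) : PowerSeries ℤ)

/-- (ZCF) the counting series of the lattice points of a rational polyhedron in the orthant. -/
def S_ZCF : Prop :=
  ∀ {n r : ℕ} (h : Fin r → Fin n → ℤ) (d : Fin r → ℤ) (E : Finset (Fin r)) (β : Fin n → ℕ),
    ∃ (l : List (Fin n → ℕ)) (P : Polynomial (Polynomial ℤ)),
      (∀ a ∈ l, a ≠ 0 ∧ (∀ j, 0 ≤ ∑ i, h j i * (a i : ℤ)) ∧
        (∀ j ∈ E, ∑ i, h j i * (a i : ℤ) = 0) ∧
        ∀ u : Fin n → ℚ, (∀ i, a i = 0 → u i = 0) →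
          (∀ j, ∑ i, h j i * (a i : ℤ) = 0 → ∑ i, (h j i : ℚ) * u i = 0) →
          ∃ ρ : ℚ, ∀ i, u i = ρ * a i) ∧
      Phi (fun u => ∑ i, β i * u i) (Pool.Agent.W426.SM.poly h d E) *
          (l.map fun a => 1 - PowerSeries.C (PowerSeries.X ^ (∑ i, a i)) *
            PowerSeries.X ^ (∑ i, β i * a i)).prod =
        PowerSeries.map (Polynomial.coeToPowerSeries.ringHom (R := ℤ))
          ((P : Polynomial (Polynomial ℤ)) : PowerSeries (Polynomial ℤ))

/-- (RAT) rationality, with only the rays of the normal fan. -/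
def S_RAT : Prop :=
  ∀ {n r : ℕ} (A : Fin n → ℕ) (m : Fin r → Fin n → ℕ) (e : ℕ) (J : Finset (Fin n))
    (τ : Finset (Fin r)), 0 < r → 0 < e →
    ∃ (l : List (Fin n → ℕ)) (P : Polynomial (Polynomial ℤ)),
      (∀ a ∈ l, IsRay m a ∧ 0 < ford A m e a) ∧
      (PowerSeries.mk fun M => cp A m e J τ M M) *
          (l.map fun a => 1 - PowerSeries.C (Polynomial.X ^ (∑ i, a i)) *
            PowerSeries.X ^ ford A m e a).prod =
        ((P : Polynomial (Polynomial ℤ)) : PowerSeries (Polynomial ℤ))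

/-! ### Additive invariants -/

/-- (K0) the Grothendieck ring. -/
def S_K0 : Prop :=
  ∀ (K : Type) [Field K] [CharZero K], ∃ M : Meas K (K0 K), ∀ (ι : Type) [Fintype ι]
    (S : Set (Pt K ι)), M.χ ι S = cls ι S

/-- (COORD) one coordinate varies in a product. -/
def S_Coord : Prop :=
  ∀ {K : Type} [Field K] {R : Type} [CommRing R] (M : Meas K R) {ι : Type} [Fintype ι]
    [DecidableEq ι] (S : Set (Pt K ι)) (i : ι) (a : K) (T : Set (Pt K (Fin 1))),
    Constr S → Constr T → (∀ z ∈ S, z i = algebraMap K _ a) →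
    M.χ ι {z | Function.update z i (algebraMap K _ a) ∈ S ∧ (fun _ => z i) ∈ T} =
      M.χ ι S * M.χ (Fin 1) T

/-- (FREE) free coordinates: those in `F0` are arbitrary but nonzero, those in `F1` arbitrary. -/
def S_Free : Prop :=
  ∀ {K : Type} [Field K] {R : Type} [CommRing R] (M : Meas K R) {ι : Type} [Fintype ι]
    [DecidableEq ι] (S : Set (Pt K ι)) (F0 F1 : Finset ι) (a : ι → K), Disjoint F0 F1 →
    Constr S → (∀ z w : Pt K ι, (∀ i, i ∉ F0 → i ∉ F1 → w i = z i) → z ∈ S → w ∈ S) →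
    M.χ ι (S ∩ {z | ∀ i ∈ F0, z i ≠ 0}) =
      M.χ ι (S ∩ {z | ∀ i ∈ F0 ∪ F1, z i = algebraMap K _ (a i)}) *
        (M.L - 1) ^ F0.card * M.L ^ F1.card

/-- (SUB) affine substitution in one coordinate. -/
def S_Sub : Prop :=
  ∀ {K : Type} [Field K] {R : Type} [CommRing R] (M : Meas K R) {ι : Type} [Fintype ι]
    [DecidableEq ι] (S T : Set (Pt K ι)) (i : ι) (a b : Pt K ι → AlgebraicClosure K),
    Constr S → Constr T → IsPF a → IsPF b →
    (∀ z w, a (Function.update z i w) = a z) → (∀ z w, b (Function.update z i w) = b z) →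
    (∀ z ∈ S, a z ≠ 0) → (∀ z ∈ T, a z ≠ 0) →
    (∀ z, a z ≠ 0 → (z ∈ S ↔ Function.update z i (a z * z i + b z) ∈ T)) →
    M.χ ι S = M.χ ι T

/-! ### Power series -/

/-- (ORD) -/
def S_Ord : Prop :=
  ∀ {F : Type} [Field F] (P G : PowerSeries F) (e p : ℕ), 0 < e →
    PowerSeries.constantCoeff P ≠ 0 →
    ((∀ k ≤ p, PowerSeries.coeff k (P * G ^ e) = if k = p then 1 else 0) ↔
      ∃ l, e * l = p ∧ (∀ k < l, PowerSeries.coeff k G = 0) ∧
        PowerSeries.constantCoeff P * (PowerSeries.coeff l G) ^ e = 1)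

/-- `∑_{j ∈ τ} c_j z ^ m_j` -/
noncomputable def gbar {F : Type} [Field F] {n r : ℕ} (m : Fin r → Fin n → ℕ) (c : Fin r → F)
    (τ : Finset (Fin r)) (z : Fin n → F) : F := ∑ j ∈ τ, c j * ∏ i, z i ^ m j i

/-- the partial derivative of `gbar` -/
noncomputable def dgbar {F : Type} [Field F] {n r : ℕ} (m : Fin r → Fin n → ℕ) (c : Fin r → F)
    (τ : Finset (Fin r)) (i₀ : Fin n) (z : Fin n → F) : F :=
  ∑ j ∈ τ, c j * ((m j i₀ : F) * ∏ i, z i ^ (m j i - if i = i₀ then 1 else 0))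

/-- `∑_j c_j t ^ δ_j y ^ m_j` for power series `y_i` -/
noncomputable def gser {F : Type} [Field F] {n r : ℕ} (m : Fin r → Fin n → ℕ) (c : Fin r → F)
    (δ : Fin r → ℕ) (y : Fin n → PowerSeries F) : PowerSeries F :=
  ∑ j, PowerSeries.C (c j) * PowerSeries.X ^ δ j * ∏ i, y i ^ m j i

/-- (TAY) the coefficients of `gser`. -/
def S_Tay : Prop :=
  ∀ {F : Type} [Field F] {n r : ℕ} (m : Fin r → Fin n → ℕ) (c : Fin r → F) (δ : Fin r → ℕ)
    (y : Fin n → PowerSeries F),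
    PowerSeries.coeff 0 (gser m c δ y) =
      gbar m c (Finset.univ.filter fun j => δ j = 0) (fun i => PowerSeries.constantCoeff (y i)) ∧
    (∀ (q : ℕ) (y' : Fin n → PowerSeries F), (∀ i, ∀ k ≤ q, PowerSeries.coeff k (y' i) =
      PowerSeries.coeff k (y i)) →
      ∀ k ≤ q, PowerSeries.coeff k (gser m c δ y') = PowerSeries.coeff k (gser m c δ y)) ∧
    ∀ (q : ℕ) (i : Fin n) (w : F), 1 ≤ q →
      PowerSeries.coeff q (gser m c δ (Function.update y i
          (y i + PowerSeries.C w * PowerSeries.X ^ q))) =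
        PowerSeries.coeff q (gser m c δ y) +
          w * dgbar m c (Finset.univ.filter fun j => δ j = 0) i
            (fun i => PowerSeries.constantCoeff (y i))

/-- (NON) nondegeneracy. -/
def S_Non : Prop :=
  ∀ {F : Type} [Field F] [CharZero F] {n r : ℕ} (m : Fin r → Fin n → ℕ) (c : Fin r → F)
    (τ : Finset (Fin r)) (z : Fin n → F), AffInd m → (∀ j, c j ≠ 0) → τ.Nonempty →
    (∀ i, (∃ j ∈ τ, m j i ≠ 0) → z i ≠ 0) → gbar m c τ z = 0 → ∃ i, dgbar m c τ i z ≠ 0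

/-! ### Strata -/

section Strata

variable {K : Type} [Field K] {n r : ℕ}

/-- The jets of level `2 N + 1` with origin `x`, with `f(ψ) = t ^ N mod t ^ (N + 1)` and with
orders `u` (`u i = N + 1` means order at least `N + 1`). -/
def strat (f : MvPolynomial (Fin n) K) (x : Fin n → K) (N : ℕ) (u : Fin n → ℕ) :
    Set (Pt K (Fin n × Fin (2 * N + 1 + 1))) :=
  {z | (∀ i, z (i, 0) = algebraMap K _ (x i)) ∧
    (∀ i, (∀ j < u i, PowerSeries.coeff j (arc z i) = 0) ∧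
      (u i ≤ N → PowerSeries.coeff (u i) (arc z i) ≠ 0)) ∧
    ∀ j ≤ N, PowerSeries.coeff j (aeval (arc z) f) = if j = N then 1 else 0}

/-- The coordinates `y` with `z_i = t ^ (u i) y_i`. -/
def Y0 (x : Fin n → K) (N : ℕ) (u : Fin n → ℕ) : Set (Pt K (Fin n × Fin (2 * N + 1 + 1))) :=
  {y | (∀ i (j : Fin (2 * N + 1 + 1)), 2 * N + 1 - u i < (j : ℕ) → y (i, j) = 0) ∧
    (∀ i, u i ≤ N → y (i, 0) ≠ 0) ∧ ∀ i, x i ≠ 0 → y (i, 0) = algebraMap K _ (x i)}

/-- the coefficients in the algebraic closure -/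
noncomputable def cb (c : Fin r → K) (j : Fin r) : AlgebraicClosure K := algebraMap K _ (c j)

/-- `δ_j = u.m_j - min` -/
noncomputable def del (m : Fin r → Fin n → ℕ) (u : Fin n → ℕ) (j : Fin r) : ℕ :=
  ∑ i, u i * m j i - gord m u

/-- The base of the strata of type `τ` on which the order of `∑ c_j x ^ m_j` is the expected one;
the free coordinates are normalised to `1`. -/
def B0 (A : Fin n → ℕ) (m : Fin r → Fin n → ℕ) (c : Fin r → K) (e : ℕ) (x : Fin n → K)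
    (J : Finset (Fin n)) (τ : Finset (Fin r)) : Set (Pt K (Fin n)) :=
  {z | (∀ i, i ∉ J → z i = algebraMap K _ (x i)) ∧ (∀ i ∈ J, z i ≠ 0) ∧
    (∀ i ∈ free A m J τ, z i = 1) ∧ (∏ i, z i ^ A i) * gbar m (cb c) τ z ^ e = 1}

/-- The base of the strata of type `τ` on which the order of `∑ c_j x ^ m_j` is larger. -/
def B1 (A : Fin n → ℕ) (m : Fin r → Fin n → ℕ) (c : Fin r → K) (e : ℕ) (x : Fin n → K)
    (J : Finset (Fin n)) (τ : Finset (Fin r)) : Set (Pt K (Option (Fin n))) :=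
  {z | (∀ i, i ∉ J → z (some i) = algebraMap K _ (x i)) ∧ (∀ i ∈ J, z (some i) ≠ 0) ∧
    (∀ i ∈ free A m J τ, z (some i) = 1) ∧ gbar m (cb c) τ (fun i => z (some i)) = 0 ∧
    (∏ i, z (some i) ^ A i) * z none ^ e = 1}

end Strata

/-- (JET) partition of the jets by the orders of the coordinates. -/
def S_Jet : Prop :=
  ∀ {K : Type} [Field K] {R : Type} [CommRing R] (M : Meas K R) {n : ℕ}
    (f : MvPolynomial (Fin n) K) (x : Fin n → K) (J : Finset (Fin n)),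
    (∀ i, i ∈ J ↔ x i = 0) → ∀ N : ℕ, 1 ≤ N →
    M.χ (Fin n × Fin (N + 1)) (Jet f x N) * M.L ^ (n * (N + 1)) =
      ∑ u ∈ (Fintype.piFinset fun _ : Fin n => Finset.range (N + 2)).filter (Adm J),
        M.χ (Fin n × Fin (2 * N + 1 + 1)) (strat f x N u)

/-- (SHIFT) `z_i = t ^ (u i) y_i`. -/
def S_Shift : Prop :=
  ∀ {K : Type} [Field K] {R : Type} [CommRing R] (M : Meas K R) {n : ℕ}
    (f : MvPolynomial (Fin n) K) (x : Fin n → K) (J : Finset (Fin n)),
    (∀ i, i ∈ J ↔ x i = 0) → ∀ N : ℕ, 1 ≤ N → ∀ u : Fin n → ℕ, Adm J u → (∀ i, u i ≤ N + 1) →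
    M.χ _ (strat f x N u) =
      M.χ _ (Y0 x N u ∩ {y | ∀ j ≤ N, PowerSeries.coeff j
        (aeval (fun i => PowerSeries.X ^ u i * arc y i) f) = if j = N then 1 else 0})

/-- (COND) the condition on `y`. -/
def S_Cond : Prop :=
  ∀ {K : Type} [Field K] [CharZero K] {n r : ℕ} (A : Fin n → ℕ) (m : Fin r → Fin n → ℕ)
    (c : Fin r → K) (e : ℕ) (x : Fin n → K) (J : Finset (Fin n)), (∀ i, i ∈ J ↔ x i = 0) →
    0 < r → 0 < e → ∀ N : ℕ, 1 ≤ N → ∀ u : Fin n → ℕ, Adm J u → (∀ i, u i ≤ N + 1) →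
    ∀ y ∈ Y0 x N u,
      ((∀ j ≤ N, PowerSeries.coeff j
          (aeval (fun i => PowerSeries.X ^ u i * arc y i) (sp A m c e)) = if j = N then 1 else 0) ↔
        ∃ l, ford A m e u + e * l = N ∧
          (∀ k < l, PowerSeries.coeff k (gser m (cb c) (del m u) (arc y)) = 0) ∧
          (∏ i, y (i, 0) ^ A i) *
            (PowerSeries.coeff l (gser m (cb c) (del m u) (arc y))) ^ e = 1)

/-- (STB) the strata with `l = 0`. -/
def S_StB : Prop :=
  ∀ {K : Type} [Field K] [CharZero K] {R : Type} [CommRing R] (M : Meas K R) {n r : ℕ}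
    (A : Fin n → ℕ) (m : Fin r → Fin n → ℕ) (c : Fin r → K) (e : ℕ) (x : Fin n → K)
    (J : Finset (Fin n)), (∀ i, i ∈ J ↔ x i = 0) → AffInd m → (∀ j, c j ≠ 0) →
    0 < r → 0 < e → ∀ N : ℕ, 1 ≤ N → ∀ u : Fin n → ℕ, Adm J u → (∀ i, u i ≤ N + 1) →
    ford A m e u = N →
    M.χ _ (Y0 x N u ∩ {y | (∏ i, y (i, 0) ^ A i) *
        (PowerSeries.coeff 0 (gser m (cb c) (del m u) (arc y))) ^ e = 1}) =
      M.χ _ (B0 A m c e x J (amin m u)) *
        (M.L - 1) ^ ((free A m J (amin m u)).filter fun i => u i ≤ N).card *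
        M.L ^ ((free A m J (amin m u)).filter fun i => ¬ u i ≤ N).card *
        M.L ^ (∑ i, (2 * N + 1 - u i))

/-- (STC) the strata with `l ≥ 1`. -/
def S_StC : Prop :=
  ∀ {K : Type} [Field K] [CharZero K] {R : Type} [CommRing R] (M : Meas K R) {n r : ℕ}
    (A : Fin n → ℕ) (m : Fin r → Fin n → ℕ) (c : Fin r → K) (e : ℕ) (x : Fin n → K)
    (J : Finset (Fin n)), (∀ i, i ∈ J ↔ x i = 0) → AffInd m → (∀ j, c j ≠ 0) →
    0 < r → 0 < e → ∀ N : ℕ, 1 ≤ N → ∀ u : Fin n → ℕ, Adm J u → (∀ i, u i ≤ N + 1) →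
    ∀ l : ℕ, 1 ≤ l → ford A m e u + e * l = N →
    M.χ _ (Y0 x N u ∩ {y |
        (∀ k < l, PowerSeries.coeff k (gser m (cb c) (del m u) (arc y)) = 0) ∧
        (∏ i, y (i, 0) ^ A i) *
          (PowerSeries.coeff l (gser m (cb c) (del m u) (arc y))) ^ e = 1}) * M.L ^ l =
      M.χ _ (B1 A m c e x J (amin m u)) *
        (M.L - 1) ^ ((free A m J (amin m u)).filter fun i => u i ≤ N).card *
        M.L ^ ((free A m J (amin m u)).filter fun i => ¬ u i ≤ N).card *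
        M.L ^ (∑ i, (2 * N + 1 - u i))

/-- (SUM) the class of the jets. -/
def S_Sum : Prop :=
  ∀ {K : Type} [Field K] [CharZero K] {R : Type} [CommRing R] (M : Meas K R) {n r : ℕ}
    (A : Fin n → ℕ) (m : Fin r → Fin n → ℕ) (c : Fin r → K) (e : ℕ) (x : Fin n → K)
    (J : Finset (Fin n)), (∀ i, i ∈ J ↔ x i = 0) → AffInd m → (∀ j, c j ≠ 0) →
    0 < r → 0 < e → ∀ Y : R, M.L * Y = 1 → ∀ N : ℕ, 1 ≤ N →
    M.χ _ (Jet (sp A m c e) x N) * Y ^ (n * N) =
      ∑ τ : Finset (Fin r), M.L ^ (free A m J τ).card *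
        (M.χ _ (B0 A m c e x J τ) * Polynomial.eval₂ (Int.castRingHom R) Y (cp A m e J τ N N) +
          ∑ l ∈ Finset.Icc 1 N, if e * l ≤ N then
            M.χ _ (B1 A m c e x J τ) * Y ^ l *
              Polynomial.eval₂ (Int.castRingHom R) Y (cp A m e J τ N (N - e * l)) else 0)

/-! ### Roots and the final statement -/

/-- (ROOTC) the roots of the Bernstein-Sato polynomial. -/
def S_RootC : Prop :=
  ∀ {n r : ℕ} (A : Fin n → ℕ) (m : Fin r → Fin n → ℕ) (c : Fin r → ℂ) (e : ℕ),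
    AffInd m → (∀ j, c j ≠ 0) → 2 ≤ r → 0 < e → (∀ i, A i ≠ 0 ∨ ∀ j, m j i ≠ 1) →
    ∀ b : Polynomial ℂ, Pool.Agent.H628R4.TP.IsBFunction (sp A m c e) b →
    b.eval (-(1 / (e : ℂ))) = 0 ∧
    ∀ a : Fin n → ℕ, IsRay m a → 0 < ford A m e a →
      b.eval (-(((∑ i, a i : ℕ) : ℂ) / ford A m e a)) = 0

/-- (FIN) the final statement. -/
def S_FIN : Prop :=
  ∀ (k K : Type) [Field k] [Algebra k ℂ] [Field K] [Algebra k K] {n r : ℕ} (A : Fin n → ℕ)
    (m : Fin r → Fin n → ℕ) (c : Fin r → k) (e : ℕ),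
    AffInd m → (∀ j, c j ≠ 0) → 2 ≤ r → 0 < e → (∀ i, A i ≠ 0 ∨ ∀ j, m j i ≠ 1) →
    ∀ x : Fin n → K, aeval x (sp A m c e) = 0 →
    ∃ S : Finset (ℤ × ℤ),
      (∀ p ∈ S, p.1 < 0 ∧ 0 < p.2 ∧ ∀ b : Polynomial ℂ,
        Pool.Agent.H628R4.TP.IsBFunction (sp A m (fun j => algebraMap k ℂ (c j)) e) b →
          b.eval ((p.1 : ℂ) / p.2) = 0) ∧
      zeta (sp A m (fun j => algebraMap k K (c j)) e) x ∈ ratRing K S

end Pool.Agent.W428.MOT
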