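import Pool.Agent.W428.MOT.EDefs
import Pool.Agent.W428.MOT.Stm

/-!
# Project ME: statements of the parts of the equivariant version (nothing is proved here)
-/

set_option autoImplicit false

namespace Pool.Agent.W428.MOT

open MvPolynomial
open Pool.Agent.W426.SM (AffInd gord ford IsRay face)

/-- (EK0) the Grothendieck ring as additive invariant. -/
def S_EK0 : Prop :=
  ∀ (k : Type) [Field k] [CharZero k] {n : ℕ} (f : MvPolynomial (Fin n) k),
    ∃ M : EMeas f (K0Mu f), M.L = LMu f ∧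
      ∀ (ι : Type) [Fintype ι] (S : Set (Pt k ι)) (ρ : ι → ℤ) (d : ℕ) (β : Fin n → Option ι)
        (h : Valid f S ρ d β), M.χ ι S ρ d β = K0Mu.mk (diagVar h)

/-- (EFREE) free coordinates. -/
def S_EFree : Prop :=
  ∀ {k : Type} [Field k] {n : ℕ} {f : MvPolynomial (Fin n) k} {R : Type} [CommRing R]
    (M : EMeas f R) {ι : Type} [Fintype ι] [DecidableEq ι] (S : Set (Pt k ι)) (ρ : ι → ℤ)
    (d : ℕ) (β : Fin n → Option ι) (F0 F1 : Finset ι) (a : ι → k), Disjoint F0 F1 →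
    Valid f S ρ d β → (∀ i j, β i = some j → j ∉ F0 ∧ j ∉ F1) →
    (∀ z w : Pt k ι, (∀ i, i ∉ F0 → i ∉ F1 → w i = z i) → z ∈ S → w ∈ S) →
    M.χ ι (S ∩ {z | ∀ i ∈ F0, z i ≠ 0}) ρ d β =
      M.χ ι (S ∩ {z | ∀ i ∈ F0 ∪ F1, z i = algebraMap k _ (a i)})
        (fun i => if i ∈ F0 ∪ F1 then 0 else ρ i) d β *
        (M.L - 1) ^ F0.card * M.L ^ F1.card

/-- (ESUB) affine substitution in one coordinate. -/
def S_ESub : Prop :=
  ∀ {k : Type} [Field k] {n : ℕ} {f : MvPolynomial (Fin n) k} {R : Type} [CommRing R]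
    (M : EMeas f R) {ι : Type} [Fintype ι] [DecidableEq ι] (S T : Set (Pt k ι)) (ρ ρ' : ι → ℤ)
    (d : ℕ) (β : Fin n → Option ι) (i : ι) (a b : Pt k ι → AlgebraicClosure k),
    Valid f S ρ d β → Valid f T ρ' d β → (∀ j, j ≠ i → ρ' j = ρ j) → (∀ j, β j ≠ some i) →
    IsPF a → IsPF b →
    (∀ z w, a (Function.update z i w) = a z) → (∀ z w, b (Function.update z i w) = b z) →
    (∀ l : AlgebraicClosure k, l ^ d = 1 → ∀ z, a (dact ρ l z) = l ^ (ρ' i - ρ i) * a z) →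
    (∀ l : AlgebraicClosure k, l ^ d = 1 → ∀ z, b (dact ρ l z) = l ^ ρ' i * b z) →
    (∀ z ∈ S, a z ≠ 0) → (∀ z ∈ T, a z ≠ 0) →
    (∀ z, a z ≠ 0 → (z ∈ S ↔ Function.update z i (a z * z i + b z) ∈ T)) →
    M.χ ι S ρ d β = M.χ ι T ρ' d β

/-- (ETW) the class does not change when the action is twisted by a torus. -/
def S_ETw : Prop :=
  ∀ {k : Type} [Field k] {n : ℕ} {f : MvPolynomial (Fin n) k} {R : Type} [CommRing R]
    (M : EMeas f R) {ι : Type} [Fintype ι] [DecidableEq ι] (S : Set (Pt k ι)) (ρ₁ ρ₂ : ι → ℤ)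
    (d₁ d₂ : ℕ) (β : Fin n → Option ι), Valid f S ρ₁ d₁ β → Valid f S ρ₂ d₂ β →
    (∀ z ∈ S, ∀ i, (d₂ : ℤ) * ρ₁ i ≠ d₁ * ρ₂ i → z i ≠ 0) →
    (∀ s : AlgebraicClosure k, s ≠ 0 → ∀ z ∈ S,
      dact (fun i => (d₂ : ℤ) * ρ₁ i - d₁ * ρ₂ i) s z ∈ S) →
    M.χ ι S ρ₁ d₁ β = M.χ ι S ρ₂ d₂ β

section Strata

variable {k : Type} [Field k] {n r : ℕ}

/-- The jets of level `2 N + 1` with `f(ψ) = t ^ N mod t ^ (N + 1)` and with orders `u`
(`u i = N + 1` means order at least `N + 1`). -/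
def stratE (f : MvPolynomial (Fin n) k) (N : ℕ) (u : Fin n → ℕ) :
    Set (Pt k (Fin n × Fin (2 * N + 1 + 1))) :=
  {z | (∀ i, (∀ j < u i, PowerSeries.coeff j (arc z i) = 0) ∧
      (u i ≤ N → PowerSeries.coeff (u i) (arc z i) ≠ 0)) ∧
    ∀ j ≤ N, PowerSeries.coeff j (aeval (arc z) f) = if j = N then 1 else 0}

/-- the weights `j` of the coordinates `z (i, j)` -/
def jw (n N : ℕ) (p : Fin n × Fin (N + 1)) : ℤ := ((p.2 : ℕ) : ℤ)

/-- the base point `(z (i, 0))_i` -/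
def jb (n N : ℕ) (i : Fin n) : Option (Fin n × Fin (N + 1)) := some (i, 0)

/-- The coordinates `y` with `z_i = t ^ (u i) y_i`. -/
def Y0E (k : Type) [Field k] {n : ℕ} (N : ℕ) (u : Fin n → ℕ) :
    Set (Pt k (Fin n × Fin (2 * N + 1 + 1))) :=
  {y | (∀ i (j : Fin (2 * N + 1 + 1)), 2 * N + 1 - u i < (j : ℕ) → y (i, j) = 0) ∧
    ∀ i, u i ≤ N → y (i, 0) ≠ 0}

/-- the weights `u i + j` of the coordinates `y (i, j)` -/
def yw (N : ℕ) (u : Fin n → ℕ) (p : Fin n × Fin (N + 1)) : ℤ :=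
  (u p.1 : ℤ) + ((p.2 : ℕ) : ℤ)

/-- the base point: `y (i, 0)` if `u i = 0`, and `0` otherwise -/
def yb (N : ℕ) (u : Fin n → ℕ) (i : Fin n) : Option (Fin n × Fin (N + 1)) :=
  if u i = 0 then some (i, 0) else none

/-- The base of the strata of type `τ`, `l = 0`. -/
def EB0 (A : Fin n → ℕ) (m : Fin r → Fin n → ℕ) (c : Fin r → k) (e : ℕ)
    (J : Finset (Fin n)) (τ : Finset (Fin r)) : Set (Pt k (Fin n)) :=
  {z | (∀ i, z i ≠ 0) ∧ (∀ i ∈ free A m J τ, z i = 1) ∧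
    (∏ i, z i ^ A i) * gbar m (cb c) τ z ^ e = 1}

/-- the weights: `u i`, and `0` for the free coordinates -/
def bw (A : Fin n → ℕ) (m : Fin r → Fin n → ℕ) (J : Finset (Fin n)) (τ : Finset (Fin r))
    (u : Fin n → ℕ) (i : Fin n) : ℤ := if i ∈ free A m J τ then 0 else (u i : ℤ)

/-- the base point -/
def bb (J : Finset (Fin n)) (i : Fin n) : Option (Fin n) := if i ∈ J then none else some i

/-- The base of the strata of type `τ`, `l ≥ 1`. -/
def EB1 (A : Fin n → ℕ) (m : Fin r → Fin n → ℕ) (c : Fin r → k) (e : ℕ)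
    (J : Finset (Fin n)) (τ : Finset (Fin r)) : Set (Pt k (Option (Fin n))) :=
  {z | (∀ i, z (some i) ≠ 0) ∧ (∀ i ∈ free A m J τ, z (some i) = 1) ∧
    gbar m (cb c) τ (fun i => z (some i)) = 0 ∧ (∏ i, z (some i) ^ A i) * z none ^ e = 1}

/-- the weights: `gord m u + l` for `none` -/
noncomputable def bw1 (A : Fin n → ℕ) (m : Fin r → Fin n → ℕ) (J : Finset (Fin n))
    (τ : Finset (Fin r)) (u : Fin n → ℕ) (l : ℕ) : Option (Fin n) → ℤ
  | none => (gord m u : ℤ) + l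
  | some i => bw A m J τ u i

/-- the base point -/
def bb1 (J : Finset (Fin n)) (i : Fin n) : Option (Option (Fin n)) :=
  if i ∈ J then none else some (some i)

end Strata

/-- (EJET) partition of the jets by the orders of the coordinates. -/
def S_EJet : Prop :=
  ∀ {k : Type} [Field k] {n : ℕ} {f : MvPolynomial (Fin n) k} {R : Type} [CommRing R]
    (M : EMeas f R) (N : ℕ), 1 ≤ N →
    M.χ (Fin n × Fin (N + 1)) (JetE f N) (jw n N) N (jb n N) * M.L ^ (n * (N + 1)) =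
      ∑ u ∈ (Fintype.piFinset fun _ : Fin n => Finset.range (N + 2)),
        M.χ (Fin n × Fin (2 * N + 1 + 1)) (stratE f N u) (jw n (2 * N + 1)) N
          (jb n (2 * N + 1))

/-- (ESHIFT) `z_i = t ^ (u i) y_i`. -/
def S_EShift : Prop :=
  ∀ {k : Type} [Field k] {n : ℕ} {f : MvPolynomial (Fin n) k} {R : Type} [CommRing R]
    (M : EMeas f R) (N : ℕ), 1 ≤ N → ∀ u : Fin n → ℕ, (∀ i, u i ≤ N + 1) →
    M.χ _ (stratE f N u) (jw n (2 * N + 1)) N (jb n (2 * N + 1)) =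
      M.χ _ (Y0E k N u ∩ {y | ∀ j ≤ N, PowerSeries.coeff j
        (aeval (fun i => PowerSeries.X ^ u i * arc y i) f) = if j = N then 1 else 0})
        (yw (2 * N + 1) u) N (yb (2 * N + 1) u)

/-- (ECOND) the condition on `y`. -/
def S_ECond : Prop :=
  ∀ {k : Type} [Field k] [CharZero k] {n r : ℕ} (A : Fin n → ℕ) (m : Fin r → Fin n → ℕ)
    (c : Fin r → k) (e : ℕ), 0 < r → 0 < e → ∀ N : ℕ, 1 ≤ N → ∀ u : Fin n → ℕ,
    (∀ i, u i ≤ N + 1) → ∀ y ∈ Y0E k N u,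
      ((∀ j ≤ N, PowerSeries.coeff j
          (aeval (fun i => PowerSeries.X ^ u i * arc y i) (sp A m c e)) = if j = N then 1 else 0) ↔
        ∃ l, ford A m e u + e * l = N ∧
          (∀ k < l, PowerSeries.coeff k (gser m (cb c) (del m u) (arc y)) = 0) ∧
          (∏ i, y (i, 0) ^ A i) *
            (PowerSeries.coeff l (gser m (cb c) (del m u) (arc y))) ^ e = 1)

/-- (ESTB) the strata with `l = 0`. -/
def S_EStB : Prop :=
  ∀ {k : Type} [Field k] [CharZero k] {n r : ℕ} (A : Fin n → ℕ) (m : Fin r → Fin n → ℕ)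
    (c : Fin r → k) (e : ℕ) {R : Type} [CommRing R] (M : EMeas (sp A m c e) R),
    AffInd m → (∀ j, c j ≠ 0) → 0 < r → 0 < e → ∀ (J : Finset (Fin n)) (N : ℕ), 1 ≤ N →
    ∀ u : Fin n → ℕ, Adm J u → (∀ i, u i ≤ N + 1) → ford A m e u = N →
    M.χ _ (Y0E k N u ∩ {y | (∏ i, y (i, 0) ^ A i) *
        (PowerSeries.coeff 0 (gser m (cb c) (del m u) (arc y))) ^ e = 1})
        (yw (2 * N + 1) u) N (yb (2 * N + 1) u) =
      M.χ _ (EB0 A m c e J (amin m u)) (bw A m J (amin m u) u) N (bb J) *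
        (M.L - 1) ^ ((free A m J (amin m u)).filter fun i => u i ≤ N).card *
        M.L ^ ((free A m J (amin m u)).filter fun i => ¬ u i ≤ N).card *
        M.L ^ (∑ i, (2 * N + 1 - u i))

/-- (ESTC) the strata with `l ≥ 1`. -/
def S_EStC : Prop :=
  ∀ {k : Type} [Field k] [CharZero k] {n r : ℕ} (A : Fin n → ℕ) (m : Fin r → Fin n → ℕ)
    (c : Fin r → k) (e : ℕ) {R : Type} [CommRing R] (M : EMeas (sp A m c e) R),
    AffInd m → (∀ j, c j ≠ 0) → 0 < r → 0 < e → ∀ (J : Finset (Fin n)) (N : ℕ), 1 ≤ N →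
    ∀ u : Fin n → ℕ, Adm J u → (∀ i, u i ≤ N + 1) → ∀ l : ℕ, 1 ≤ l →
    ford A m e u + e * l = N →
    M.χ _ (Y0E k N u ∩ {y |
        (∀ k < l, PowerSeries.coeff k (gser m (cb c) (del m u) (arc y)) = 0) ∧
        (∏ i, y (i, 0) ^ A i) *
          (PowerSeries.coeff l (gser m (cb c) (del m u) (arc y))) ^ e = 1})
        (yw (2 * N + 1) u) N (yb (2 * N + 1) u) * M.L ^ l =
      M.χ _ (EB1 A m c e J (amin m u)) (bw1 A m J (amin m u) u l) N (bb1 J) *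
        (M.L - 1) ^ ((free A m J (amin m u)).filter fun i => u i ≤ N).card *
        M.L ^ ((free A m J (amin m u)).filter fun i => ¬ u i ≤ N).card *
        M.L ^ (∑ i, (2 * N + 1 - u i))

/-- (EIND) the classes of the bases do not depend on `u`. -/
def S_EInd : Prop :=
  ∀ {k : Type} [Field k] [CharZero k] {n r : ℕ} (A : Fin n → ℕ) (m : Fin r → Fin n → ℕ)
    (c : Fin r → k) (e : ℕ) {R : Type} [CommRing R] (M : EMeas (sp A m c e) R),
    AffInd m → (∀ j, c j ≠ 0) → 0 < r → 0 < e → ∀ (J : Finset (Fin n)) (τ : Finset (Fin r)),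
    ∃ b0 b1 : R, ∀ u : Fin n → ℕ, Adm J u → amin m u = τ →
      (0 < ford A m e u →
        M.χ _ (EB0 A m c e J τ) (bw A m J τ u) (ford A m e u) (bb J) = b0) ∧
      ∀ l, 1 ≤ l →
        M.χ _ (EB1 A m c e J τ) (bw1 A m J τ u l) (ford A m e u + e * l) (bb1 J) = b1

/-- (ESUM) the class of the jets. -/
def S_ESum : Prop :=
  ∀ {k : Type} [Field k] [CharZero k] {n r : ℕ} (A : Fin n → ℕ) (m : Fin r → Fin n → ℕ)
    (c : Fin r → k) (e : ℕ) {R : Type} [CommRing R] (M : EMeas (sp A m c e) R),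
    AffInd m → (∀ j, c j ≠ 0) → 0 < r → 0 < e → ∀ Y : R, M.L * Y = 1 →
    ∃ b0 b1 : Finset (Fin n) → Finset (Fin r) → R, ∀ N : ℕ, 1 ≤ N →
    M.χ _ (JetE (sp A m c e) N) (jw n N) N (jb n N) * Y ^ (n * N) =
      ∑ J : Finset (Fin n), ∑ τ : Finset (Fin r), M.L ^ (free A m J τ).card *
        (b0 J τ * Polynomial.eval₂ (Int.castRingHom R) Y (cp A m e J τ N N) +
          ∑ l ∈ Finset.Icc 1 N, if e * l ≤ N then
            b1 J τ * Y ^ l *
              Polynomial.eval₂ (Int.castRingHom R) Y (cp A m e J τ N (N - e * l)) else 0)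

/-- (EFIN) the final statement. -/
def S_EFIN : Prop :=
  ∀ (k : Type) [Field k] [Algebra k ℂ] {n r : ℕ} (A : Fin n → ℕ)
    (m : Fin r → Fin n → ℕ) (c : Fin r → k) (e : ℕ),
    AffInd m → (∀ j, c j ≠ 0) → 2 ≤ r → 0 < e → (∀ i, A i ≠ 0 ∨ ∀ j, m j i ≠ 1) →
    ∃ S : Finset (ℤ × ℤ),
      (∀ p ∈ S, p.1 < 0 ∧ 0 < p.2 ∧ ∀ b : Polynomial ℂ,
        Pool.Agent.H628R4.TP.IsBFunction (sp A m (fun j => algebraMap k ℂ (c j)) e) b →
          b.eval ((p.1 : ℂ) / p.2) = 0) ∧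
      zetaMu (sp A m c e) ∈ ratRingMu (sp A m c e) S

end Pool.Agent.W428.MOT
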