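import Mathlib

/-!
# The Grothendieck ring of varieties over a field, jets, and the local motivic zeta function

`K` is a field of characteristic zero. A variety over `K` is given by its set of geometric points:
a constructible subset of some `K̄ ^ n` defined over `K`; morphisms are the maps between such sets
whose coordinates are quotients of polynomials with coefficients in `K`.
-/

set_option autoImplicit false

namespace Pool.Agent.W428.MOT

open MvPolynomial

/-- The points of the affine space with coordinates indexed by `ι`, over the algebraic closure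
of `K`. -/
abbrev Pt (K : Type) [Field K] (ι : Type) : Type := ι → AlgebraicClosure K

/-- The constructible subsets of `K̄ ^ ι` which are defined over `K`: the Boolean algebra
generated by the zero sets of the polynomials with coefficients in `K`. -/
inductive Constr {K : Type} [Field K] {ι : Type} : Set (Pt K ι) → Prop
  | zero (P : MvPolynomial ι K) : Constr {z | aeval z P = 0}
  | compl {S : Set (Pt K ι)} : Constr S → Constr Sᶜ
  | inter {S T : Set (Pt K ι)} : Constr S → Constr T → Constr (S ∩ T)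

/-- `f` is regular on `S`: its coordinates are quotients of polynomials with coefficients in `K`
whose denominators have no zero on `S`. -/
def RegularOn {K : Type} [Field K] {ι κ : Type} (S : Set (Pt K ι)) (f : Pt K ι → Pt K κ) : Prop :=
  ∀ i, ∃ P Q : MvPolynomial ι K, ∀ z ∈ S, aeval z Q ≠ 0 ∧ f z i = aeval z P / aeval z Q

/-- A variety over `K`: a constructible subset of some `K̄ ^ n` defined over `K`. -/
structure Var (K : Type) [Field K] where
  n : ℕ
  S : Set (Pt K (Fin n))
  constr : Constr S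

/-- The product of `S ⊆ K̄ ^ n` and `T ⊆ K̄ ^ m`, in `K̄ ^ (n + m)`. -/
def prodSet {K : Type} [Field K] {n m : ℕ} (S : Set (Pt K (Fin n))) (T : Set (Pt K (Fin m))) :
    Set (Pt K (Fin (n + m))) :=
  {z | (fun i => z (Fin.castAdd m i)) ∈ S ∧ (fun i => z (Fin.natAdd n i)) ∈ T}

/-- The defining relations of the Grothendieck ring of varieties over `K`:
* `[V] = [W]` if there is an isomorphism between `V` and `W`;
* `[S ∪ T] = [S] + [T]` if `S` and `T` are disjoint;
* `[V × W] = [V] [W]`;
* the class of the point is `1`. -/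
inductive Rel (K : Type) [Field K] : MvPolynomial (Var K) ℤ → Prop
  | iso (V W : Var K) (f : Pt K (Fin V.n) → Pt K (Fin W.n)) (g : Pt K (Fin W.n) → Pt K (Fin V.n))
      (hf : RegularOn V.S f) (hg : RegularOn W.S g) (hfm : Set.MapsTo f V.S W.S)
      (hgm : Set.MapsTo g W.S V.S) (hgf : ∀ x ∈ V.S, g (f x) = x) (hfg : ∀ y ∈ W.S, f (g y) = y) :
      Rel K (X V - X W)
  | scissors {n : ℕ} (S T : Set (Pt K (Fin n))) (hST : Disjoint S T) (hS : Constr S)
      (hT : Constr T) (hU : Constr (S ∪ T)) :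
      Rel K (X ⟨n, S ∪ T, hU⟩ - (X ⟨n, S, hS⟩ + X ⟨n, T, hT⟩))
  | prod (V W : Var K) (h : Constr (prodSet V.S W.S)) :
      Rel K (X ⟨V.n + W.n, prodSet V.S W.S, h⟩ - X V * X W)
  | one (h : Constr (Set.univ : Set (Pt K (Fin 0)))) : Rel K (X ⟨0, Set.univ, h⟩ - 1)

/-- The Grothendieck ring `K₀(Var_K)`. -/
def K0 (K : Type) [Field K] : Type := MvPolynomial (Var K) ℤ ⧸ Ideal.span {x | Rel K x}

noncomputable instance (K : Type) [Field K] : CommRing (K0 K) :=
  inferInstanceAs (CommRing (MvPolynomial (Var K) ℤ ⧸ Ideal.span {x | Rel K x}))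

/-- The class of a variety. -/
noncomputable def K0.mk {K : Type} [Field K] (V : Var K) : K0 K :=
  Ideal.Quotient.mk (Ideal.span {x | Rel K x}) (X V)

/-- A subset of `K̄ ^ ι` as a subset of `K̄ ^ n`, `n` the number of elements of `ι`. -/
def toFin {K : Type} [Field K] {ι : Type} [Fintype ι] (S : Set (Pt K ι)) :
    Set (Pt K (Fin (Fintype.card ι))) :=
  {z | (fun i => z (Fintype.equivFin ι i)) ∈ S}

open Classical in
/-- The class in `K₀(Var_K)` of a constructible subset of `K̄ ^ ι` (and `0` for all other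
subsets). -/
noncomputable def cls {K : Type} [Field K] (ι : Type) [Fintype ι] (S : Set (Pt K ι)) : K0 K :=
  if h : Constr (toFin S) then K0.mk ⟨Fintype.card ι, toFin S, h⟩ else 0

/-- The class `𝕃` of the affine line. -/
noncomputable def LK (K : Type) [Field K] : K0 K := cls (Fin 1) Set.univ

/-- The localised Grothendieck ring `𝓜_K = K₀(Var_K)[𝕃⁻¹]`. -/
abbrev MK (K : Type) [Field K] : Type := Localization.Away (LK K)

/-- `𝕃`, as a unit of `𝓜_K`. -/
noncomputable def Lu (K : Type) [Field K] : (MK K)ˣ :=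
  (IsLocalization.Away.algebraMap_isUnit (S := MK K) (LK K)).unit

/-! ### Jets -/

/-- The arc `t ↦ (z (i, 0) + z (i, 1) t + ⋯ + z (i, N) t ^ N)_i`. -/
noncomputable def arc {K : Type} [Field K] {n N : ℕ} (z : Pt K (Fin n × Fin (N + 1)))
    (i : Fin n) : PowerSeries (AlgebraicClosure K) :=
  PowerSeries.mk fun j => if h : j < N + 1 then z (i, ⟨j, h⟩) else 0

/-- The variety `X_{N,1,x}` of the `N`-jets `ψ` of `X = 𝔸 ^ n` with `ψ(0) = x` and
`f(ψ) = t ^ N mod t ^ (N + 1)`. -/
def Jet {K : Type} [Field K] {n : ℕ} (f : MvPolynomial (Fin n) K) (x : Fin n → K) (N : ℕ) :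
    Set (Pt K (Fin n × Fin (N + 1))) :=
  {z | (∀ i, z (i, 0) = algebraMap K (AlgebraicClosure K) (x i)) ∧
    ∀ j ≤ N, PowerSeries.coeff j (aeval (arc z) f) = if j = N then 1 else 0}

/-- The local motivic zeta function `Z_{f,x}(T) = ∑_{N ≥ 1} [X_{N,1,x}] 𝕃 ^ (- n N) T ^ N`. -/
noncomputable def zeta {K : Type} [Field K] {n : ℕ} (f : MvPolynomial (Fin n) K)
    (x : Fin n → K) : PowerSeries (MK K) :=
  PowerSeries.mk fun N => if N = 0 then 0 else
    algebraMap (K0 K) (MK K) (cls (Fin n × Fin (N + 1)) (Jet f x N)) *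
      (((Lu K) ^ (-((n * N : ℕ) : ℤ)) : (MK K)ˣ) : MK K)

/-- The power series `1 / (1 - 𝕃 ^ a T ^ b)`, for `b > 0`. -/
noncomputable def geo (K : Type) [Field K] (a b : ℤ) : PowerSeries (MK K) :=
  PowerSeries.invOfUnit (1 - PowerSeries.C (((Lu K) ^ a : (MK K)ˣ) : MK K) *
    PowerSeries.X ^ b.toNat) 1

/-- The subring `𝓜_K[T, 1 / (1 - 𝕃 ^ a T ^ b)]_{(a,b) ∈ S}` of `𝓜_K[[T]]`. -/
noncomputable def ratRing (K : Type) [Field K] (S : Set (ℤ × ℤ)) :
    Subalgebra (MK K) (PowerSeries (MK K)) :=
  Algebra.adjoin (MK K) ({PowerSeries.X} ∪ {g | ∃ p ∈ S, g = geo K p.1 p.2})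

/-! ### Sparse polynomials -/

/-- The polynomial `x ^ A * (∑_j c_j x ^ m_j) ^ e`. -/
noncomputable def sp {F : Type} [Field F] {n r : ℕ} (A : Fin n → ℕ) (m : Fin r → Fin n → ℕ)
    (c : Fin r → F) (e : ℕ) : MvPolynomial (Fin n) F :=
  (∏ i, X i ^ A i) * (∑ j, C (c j) * ∏ i, X i ^ m j i) ^ e

end Pool.Agent.W428.MOT
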