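import Pool.Agent.W428.MOT.Tools

/-!
# The Grothendieck ring of `X_s`-varieties with action of `μ̂`, and the equivariant motivic zeta
function

`k` is a field of characteristic zero, `f ∈ k[x_1, ..., x_n]`, `X = 𝔸 ^ n`, `X_s = {f = 0}`.
Varieties over `k` are given by their sets of geometric points, constructible subsets of some
`k̄ ^ N` defined over `k`. An action of the group scheme `μ̂ = lim μ_d` over `k` which factors
through `μ_d` is given by the action of the group `μ_d(k̄)` on the geometric points, which has to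
be regular over `k` as a map `μ_d × S → S`.
-/

set_option autoImplicit false

namespace Pool.Agent.W428.MOT

open MvPolynomial

/-- The set `μ_d × S`, in the coordinates `none` (root of unity) and `some i`. -/
def muProd {k : Type} [Field k] {N : ℕ} (d : ℕ) (S : Set (Pt k (Fin N))) :
    Set (Pt k (Option (Fin N))) :=
  {w | w none ^ d = 1 ∧ (fun i => w (some i)) ∈ S}

/-- An `X_s`-variety with an action of `μ̂` which factors through `μ_d`: a constructible set `S`
defined over `k`, a regular map `π : S → X_s`, and an action of `μ_d`, regular over `k`, which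
preserves the fibres of `π`. -/
structure MuVar {k : Type} [Field k] {n : ℕ} (f : MvPolynomial (Fin n) k) where
  N : ℕ
  S : Set (Pt k (Fin N))
  constr : Constr S
  π : Pt k (Fin N) → Pt k (Fin n)
  regular_π : RegularOn S π
  π_mem : ∀ z ∈ S, aeval (π z) f = 0
  d : ℕ
  d_pos : 0 < d
  act : AlgebraicClosure k → Pt k (Fin N) → Pt k (Fin N)
  regular_act : RegularOn (muProd d S) (fun w => act (w none) (fun i => w (some i)))
  act_mem : ∀ ζ : AlgebraicClosure k, ζ ^ d = 1 → ∀ z ∈ S, act ζ z ∈ S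
  act_one : ∀ z ∈ S, act 1 z = z
  act_mul : ∀ ζ ζ' : AlgebraicClosure k, ζ ^ d = 1 → ζ' ^ d = 1 → ∀ z ∈ S,
    act (ζ * ζ') z = act ζ (act ζ' z)
  π_act : ∀ ζ : AlgebraicClosure k, ζ ^ d = 1 → ∀ z ∈ S, π (act ζ z) = π z

section

variable {k : Type} [Field k] {n : ℕ} {f : MvPolynomial (Fin n) k}

/-- `φ`, `ψ` are mutually inverse isomorphisms between `V` and `W` over `X_s`, compatible with the
actions of `μ̂`: the element `(ξ_m)_m` of `μ̂` acts on `V` by `ξ_d`, `d = V.d`; if
`λ = ξ_{d d'}`, `d' = W.d`, then `ξ_d = λ ^ d'` and `ξ_d' = λ ^ d`. -/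
structure IsMuIso (V W : MuVar f) (φ : Pt k (Fin V.N) → Pt k (Fin W.N))
    (ψ : Pt k (Fin W.N) → Pt k (Fin V.N)) : Prop where
  regular : RegularOn V.S φ
  regular' : RegularOn W.S ψ
  mapsTo : Set.MapsTo φ V.S W.S
  mapsTo' : Set.MapsTo ψ W.S V.S
  left_inv : ∀ z ∈ V.S, ψ (φ z) = z
  right_inv : ∀ w ∈ W.S, φ (ψ w) = w
  overBase : ∀ z ∈ V.S, W.π (φ z) = V.π z
  equivariant : ∀ l : AlgebraicClosure k, l ^ (V.d * W.d) = 1 → ∀ z ∈ V.S,
    φ (V.act (l ^ W.d) z) = W.act (l ^ V.d) (φ z)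

/-- The restriction of `V` to a constructible subset stable under the action. -/
def MuVar.restrict (V : MuVar f) (T : Set (Pt k (Fin V.N))) (hT : Constr T) (hTS : T ⊆ V.S)
    (hst : ∀ ζ : AlgebraicClosure k, ζ ^ V.d = 1 → ∀ z ∈ T, V.act ζ z ∈ T) : MuVar f where
  N := V.N
  S := T
  constr := hT
  π := V.π
  regular_π := fun i => by
    obtain ⟨P, Q, h⟩ := V.regular_π i
    exact ⟨P, Q, fun z hz => h z (hTS hz)⟩
  π_mem := fun z hz => V.π_mem z (hTS hz)
  d := V.d
  d_pos := V.d_pos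
  act := V.act
  regular_act := fun i => by
    obtain ⟨P, Q, h⟩ := V.regular_act i
    exact ⟨P, Q, fun z hz => h z ⟨hz.1, hTS hz.2⟩⟩
  act_mem := hst
  act_one := fun z hz => V.act_one z (hTS hz)
  act_mul := fun ζ ζ' h h' z hz => V.act_mul ζ ζ' h h' z (hTS hz)
  π_act := fun ζ h z hz => V.π_act ζ h z (hTS hz)

/-- `P` is the fibre product of `V` and `W` over `X_s`, with the diagonal action. -/
structure IsFibreProd (V W P : MuVar f) (p : Pt k (Fin P.N) → Pt k (Fin V.N))
    (q : Pt k (Fin P.N) → Pt k (Fin W.N)) (j : Pt k (Fin V.N ⊕ Fin W.N) → Pt k (Fin P.N)) :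
    Prop where
  regular_p : RegularOn P.S p
  regular_q : RegularOn P.S q
  regular_j : RegularOn {w | (fun i => w (Sum.inl i)) ∈ V.S ∧ (fun i => w (Sum.inr i)) ∈ W.S ∧
    V.π (fun i => w (Sum.inl i)) = W.π (fun i => w (Sum.inr i))} j
  mapsTo : ∀ z ∈ P.S, p z ∈ V.S ∧ q z ∈ W.S ∧ V.π (p z) = W.π (q z) ∧ V.π (p z) = P.π z
  mapsTo' : ∀ v ∈ V.S, ∀ w ∈ W.S, V.π v = W.π w → j (Sum.elim v w) ∈ P.S ∧
    p (j (Sum.elim v w)) = v ∧ q (j (Sum.elim v w)) = w
  inj : ∀ z ∈ P.S, j (Sum.elim (p z) (q z)) = z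
  equivariant_p : ∀ l : AlgebraicClosure k, l ^ (P.d * V.d) = 1 → ∀ z ∈ P.S,
    p (P.act (l ^ V.d) z) = V.act (l ^ P.d) (p z)
  equivariant_q : ∀ l : AlgebraicClosure k, l ^ (P.d * W.d) = 1 → ∀ z ∈ P.S,
    q (P.act (l ^ W.d) z) = W.act (l ^ P.d) (q z)

/-- The base `X_s` with the trivial action. -/
def MuVar.base (f : MvPolynomial (Fin n) k) : MuVar f where
  N := n
  S := {z | aeval z f = 0}
  constr := Constr.zero f
  π := fun z => z
  regular_π := regularOn_poly (fun i => IsPF.coord i) _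
  π_mem := fun _ hz => hz
  d := 1
  d_pos := one_pos
  act := fun _ z => z
  regular_act := regularOn_poly (fun i => IsPF.coord (some i)) _
  act_mem := fun _ _ _ hz => hz
  act_one := fun _ _ => rfl
  act_mul := fun _ _ _ _ _ _ => rfl
  π_act := fun _ _ _ _ => rfl

/-- The affine space `𝔸 ^ r × X_s` over `X_s` with the trivial action. -/
def MuVar.aff (f : MvPolynomial (Fin n) k) (r : ℕ) : MuVar f where
  N := n + r
  S := {z | aeval (fun i => z (Fin.castAdd r i)) f = 0}
  constr := (Constr.zero f).preimage (fun (z : Pt k (Fin (n + r))) i => z (Fin.castAdd r i))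
    (fun _ => IsPF.coord _)
  π := fun z i => z (Fin.castAdd r i)
  regular_π := regularOn_poly (fun _ => IsPF.coord _) _
  π_mem := fun _ hz => hz
  d := 1
  d_pos := one_pos
  act := fun _ z => z
  regular_act := regularOn_poly (fun i => IsPF.coord (some i)) _
  act_mem := fun _ _ _ hz => hz
  act_one := fun _ _ => rfl
  act_mul := fun _ _ _ _ _ _ => rfl
  π_act := fun _ _ _ _ => rfl

/-- `P` is `V × 𝔸 ^ r`, the action of `P` lifts the action of `V` and is given by affine maps
between the fibres of `P → V`. -/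
structure IsAffineLift (V P : MuVar f) (r : ℕ) (p : Pt k (Fin P.N) → Pt k (Fin V.N))
    (q : Pt k (Fin P.N) → Pt k (Fin r)) (j : Pt k (Fin V.N ⊕ Fin r) → Pt k (Fin P.N)) :
    Prop where
  regular_p : RegularOn P.S p
  regular_q : RegularOn P.S q
  regular_j : RegularOn {w | (fun i => w (Sum.inl i)) ∈ V.S} j
  mapsTo : ∀ z ∈ P.S, p z ∈ V.S ∧ V.π (p z) = P.π z
  mapsTo' : ∀ v ∈ V.S, ∀ w, j (Sum.elim v w) ∈ P.S ∧ p (j (Sum.elim v w)) = v ∧
    q (j (Sum.elim v w)) = w
  inj : ∀ z ∈ P.S, j (Sum.elim (p z) (q z)) = z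
  equivariant_p : ∀ l : AlgebraicClosure k, l ^ (P.d * V.d) = 1 → ∀ z ∈ P.S,
    p (P.act (l ^ V.d) z) = V.act (l ^ P.d) (p z)
  affine : ∀ l : AlgebraicClosure k, l ^ P.d = 1 → ∀ v ∈ V.S,
    ∃ (A : Matrix (Fin r) (Fin r) (AlgebraicClosure k)) (b : Fin r → AlgebraicClosure k),
      ∀ z ∈ P.S, p z = v → q (P.act l z) = A.mulVec (q z) + b

/-- The defining relations of the Grothendieck ring `K₀^μ̂(Var_{X_s})`:
* `[V] = [W]` if there is an equivariant isomorphism between `V` and `W` over `X_s`;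
* `[V] = [T] + [V ∖ T]` if `T ⊆ V` is stable under the action;
* `[V ×_{X_s} W] = [V] [W]`;
* `[X_s] = 1`;
* `[V × 𝔸 ^ r] = [V] [𝔸 ^ r × X_s]` if the action on `V × 𝔸 ^ r` lifts the action on `V` and is
  affine on the fibres. -/
inductive RelMu (f : MvPolynomial (Fin n) k) : MvPolynomial (MuVar f) ℤ → Prop
  | iso (V W : MuVar f) (φ : Pt k (Fin V.N) → Pt k (Fin W.N))
      (ψ : Pt k (Fin W.N) → Pt k (Fin V.N)) (h : IsMuIso V W φ ψ) : RelMu f (X V - X W)
  | scissors (V : MuVar f) (T : Set (Pt k (Fin V.N))) (hT : Constr T) (hTS : T ⊆ V.S) (hst)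
      (hT' : Constr (V.S \ T)) (hst') :
      RelMu f (X V - (X (V.restrict T hT hTS hst) +
        X (V.restrict (V.S \ T) hT' Set.sdiff_subset hst')))
  | prod (V W P : MuVar f) (p q j) (h : IsFibreProd V W P p q j) : RelMu f (X P - X V * X W)
  | one : RelMu f (X (MuVar.base f) - 1)
  | affine (V P : MuVar f) (r : ℕ) (p q j) (h : IsAffineLift V P r p q j) :
      RelMu f (X P - X V * X (MuVar.aff f r))

/-- The Grothendieck ring `K₀^μ̂(Var_{X_s})`. -/
def K0Mu (f : MvPolynomial (Fin n) k) : Type :=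
  MvPolynomial (MuVar f) ℤ ⧸ Ideal.span {x | RelMu f x}

noncomputable instance (f : MvPolynomial (Fin n) k) : CommRing (K0Mu f) :=
  inferInstanceAs (CommRing (MvPolynomial (MuVar f) ℤ ⧸ Ideal.span {x | RelMu f x}))

/-- The class of an `X_s`-variety with action of `μ̂`. -/
noncomputable def K0Mu.mk (V : MuVar f) : K0Mu f :=
  Ideal.Quotient.mk (Ideal.span {x | RelMu f x}) (X V)

/-- `𝕃 = [𝔸 ^ 1 × X_s]`. -/
noncomputable def LMu (f : MvPolynomial (Fin n) k) : K0Mu f := K0Mu.mk (MuVar.aff f 1)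

/-- The localised ring `𝓜^μ̂_{X_s}`. -/
abbrev MKMu (f : MvPolynomial (Fin n) k) : Type := Localization.Away (LMu f)

/-- `𝕃` as a unit. -/
noncomputable def LuMu (f : MvPolynomial (Fin n) k) : (MKMu f)ˣ :=
  (IsLocalization.Away.algebraMap_isUnit (S := MKMu f) (LMu f)).unit

end

/-! ### Diagonal actions -/

section Diag

variable {k : Type} [Field k]

/-- The diagonal action with weights `ρ`. -/
noncomputable def dact {ι : Type} (ρ : ι → ℤ) (l : AlgebraicClosure k) (z : Pt k ι) : Pt k ι :=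
  fun i => l ^ ρ i * z i

/-- The base map given by coordinates: `z ↦ (z_{β i})_i`, with `0` if `β i = none`. -/
noncomputable def cbase {ι : Type} {n : ℕ} (β : Fin n → Option ι) (z : Pt k ι) : Pt k (Fin n) :=
  fun i => (β i).elim 0 z

/-- `(S, ρ, M, β)` is an `X_s`-variety with diagonal action of `μ_M`. -/
structure Valid {n : ℕ} (f : MvPolynomial (Fin n) k) {ι : Type} (S : Set (Pt k ι)) (ρ : ι → ℤ)
    (M : ℕ) (β : Fin n → Option ι) : Prop where
  constr : Constr S
  pos : 0 < M
  stable : ∀ l : AlgebraicClosure k, l ^ M = 1 → ∀ z ∈ S, dact ρ l z ∈ S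
  base : ∀ z ∈ S, aeval (cbase β z) f = 0
  inv : ∀ i j, β i = some j → ρ j = 0

/-- The `X_s`-variety with diagonal action, in `k̄ ^ N`. -/
noncomputable def diagVar {n : ℕ} {f : MvPolynomial (Fin n) k} {ι : Type} [Fintype ι] {S : Set (Pt k ι)}
    {ρ : ι → ℤ} {M : ℕ} {β : Fin n → Option ι} (h : Valid f S ρ M β) : MuVar f where
  N := Fintype.card ι
  S := toFin S
  constr := h.constr.preimage
    (fun (z : Pt k (Fin (Fintype.card ι))) i => z (Fintype.equivFin ι i)) fun _ => IsPF.coord _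
  π := fun z => cbase β (fun i => z (Fintype.equivFin ι i))
  regular_π := regularOn_poly (fun i => by
    cases hb : β i with
    | none => simpa only [cbase, hb, Option.elim] using IsPF.zero
    | some j => simpa only [cbase, hb, Option.elim] using IsPF.coord _) _
  π_mem := fun z hz => h.base _ hz
  d := M
  d_pos := h.pos
  act := fun l z => dact (fun i => ρ ((Fintype.equivFin ι).symm i)) l z
  regular_act := fun i => by
    have h1 : ∀ w : Pt k (Option (Fin (Fintype.card ι))), w none ^ M = 1 → w none ≠ 0 := by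
      intro w hw h0
      rw [h0, zero_pow h.pos.ne'] at hw
      exact zero_ne_one hw
    rcases le_or_gt 0 (ρ ((Fintype.equivFin ι).symm i)) with h0 | h0
    · refine IsRF.congr ((((IsPF.coord none).pow (ρ ((Fintype.equivFin ι).symm i)).toNat).mul
        (IsPF.coord (some i))).isRF _) fun w _ => ?_
      change (w none) ^ (ρ ((Fintype.equivFin ι).symm i)) * _ = _
      nth_rewrite 1 [← Int.toNat_of_nonneg h0]
      rw [zpow_natCast]
    · refine IsRF.congr (IsRF.div ((IsPF.coord (some i)).isRF _)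
        (((IsPF.coord none).pow (-ρ ((Fintype.equivFin ι).symm i)).toNat).isRF _)
        fun w hw => pow_ne_zero _ (h1 w hw.1)) fun w hw => ?_
      change (w none) ^ (ρ ((Fintype.equivFin ι).symm i)) * _ = _
      have h2 : (0 : ℤ) ≤ -ρ ((Fintype.equivFin ι).symm i) := by omega
      have h3 : (w none) ^ (ρ ((Fintype.equivFin ι).symm i)) =
          ((w none) ^ (-ρ ((Fintype.equivFin ι).symm i)).toNat)⁻¹ := by
        rw [← zpow_natCast, Int.toNat_of_nonneg h2, zpow_neg, inv_inv]
      rw [h3, div_eq_mul_inv, mul_comm]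
  act_mem := fun ζ hζ z hz => by
    have h1 := h.stable ζ hζ _ hz
    have h2 : dact ρ ζ (fun i => z (Fintype.equivFin ι i)) = fun i =>
        dact (fun i => ρ ((Fintype.equivFin ι).symm i)) ζ z (Fintype.equivFin ι i) := by
      funext i
      simp only [dact, Equiv.symm_apply_apply]
    rw [h2] at h1
    exact h1
  act_one := fun z _ => by
    funext i
    simp [dact]
  act_mul := fun ζ ζ' h1 h2 z _ => by
    funext i
    simp only [dact]
    rw [mul_zpow, mul_assoc]
  π_act := fun ζ _ z _ => by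
    funext i
    simp only [cbase]
    cases hb : β i with
    | none => rfl
    | some j => simp only [Option.elim, dact, Equiv.symm_apply_apply, h.inv i j hb, zpow_zero,
        one_mul]

end Diag

/-! ### Jets -/

section Jets

variable {k : Type} [Field k] {n : ℕ}

/-- The set `X_{N,1}` of the `N`-jets `ψ` with `f(ψ) = t ^ N mod t ^ (N + 1)`. -/
def JetE (f : MvPolynomial (Fin n) k) (N : ℕ) : Set (Pt k (Fin n × Fin (N + 1))) :=
  {z | ∀ j ≤ N, PowerSeries.coeff j (aeval (arc z) f) = if j = N then 1 else 0}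

/-- `ψ(t) ↦ ψ(λ t)` -/
theorem arc_dact {N : ℕ} (l : AlgebraicClosure k) (z : Pt k (Fin n × Fin (N + 1))) (i : Fin n) :
    arc (dact (fun p : Fin n × Fin (N + 1) => ((p.2 : ℕ) : ℤ)) l z) i =
      PowerSeries.rescale l (arc z i) := by
  ext j
  rw [PowerSeries.coeff_rescale]
  simp only [arc, PowerSeries.coeff_mk, dact]
  split_ifs with h
  · rw [zpow_natCast]
  · rw [mul_zero]

theorem aeval_rescale (l : AlgebraicClosure k) (γ : Fin n → PowerSeries (AlgebraicClosure k))
    (f : MvPolynomial (Fin n) k) :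
    aeval (fun i => PowerSeries.rescale l (γ i)) f = PowerSeries.rescale l (aeval γ f) := by
  induction f using MvPolynomial.induction_on with
  | C a =>
    rw [algHom_C, algHom_C, PowerSeries.algebraMap_apply]
    ext j
    rw [PowerSeries.coeff_rescale, PowerSeries.coeff_C]
    split_ifs with h
    · rw [h, pow_zero, one_mul]
    · rw [mul_zero]
  | add p q hp hq => rw [map_add, map_add, map_add, hp, hq]
  | mul_X p i hp => rw [map_mul, map_mul, map_mul, hp, aeval_X, aeval_X]

/-- The jets `X_{N,1}` form an `X_s`-variety with action `ψ(t) ↦ ψ(λ t)` of `μ_N`. -/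
theorem jetValid (f : MvPolynomial (Fin n) k) (N : ℕ) (hN : 0 < N) :
    Valid f (JetE f N) (fun p : Fin n × Fin (N + 1) => ((p.2 : ℕ) : ℤ)) N
      (fun i => some (i, 0)) where
  constr := Constr.allLe N fun j _ => by
    refine Constr.eq (IsPA.aeval (fun i z => arc z i) (fun i => isPA_arc i) f j) ?_
    split_ifs
    · exact IsPF.one
    · exact IsPF.zero
  pos := hN
  stable := fun l hl z hz j hj => by
    have h1 : arc (dact (fun p : Fin n × Fin (N + 1) => ((p.2 : ℕ) : ℤ)) l z) =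
        fun i => PowerSeries.rescale l (arc z i) := funext fun i => arc_dact l z i
    rw [h1, aeval_rescale, PowerSeries.coeff_rescale, hz j hj]
    split_ifs with h
    · rw [h, hl, one_mul]
    · rw [mul_zero]
  base := fun z hz => by
    have h1 := hz 0 (Nat.zero_le N)
    rw [if_neg (by omega)] at h1
    rw [← h1]
    have h2 : ∀ g : MvPolynomial (Fin n) k, PowerSeries.coeff 0 (aeval (arc z) g) =
        aeval (cbase (fun i => some (i, 0)) z) g := by
      intro g
      induction g using MvPolynomial.induction_on with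
      | C a =>
        rw [algHom_C, algHom_C, PowerSeries.algebraMap_apply, PowerSeries.coeff_zero_C]
      | add p q hp hq => rw [map_add, map_add, map_add, hp, hq]
      | mul_X p i hp =>
        have e1 : aeval (arc z) (p * X i) = aeval (arc z) p * arc z i := by
          rw [map_mul, aeval_X]
        have e2 : aeval (cbase (fun i => some (i, 0)) z) (p * X i) =
            aeval (cbase (fun i => some (i, 0)) z) p *
              cbase (fun i => some (i, (0 : Fin (N + 1)))) z i := by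
          rw [map_mul, aeval_X]
        rw [e1, e2, ← hp]
        simp only [PowerSeries.coeff_zero_eq_constantCoeff_apply, map_mul]
        congr 1
    exact (h2 f).symm
  inv := fun i j h => by
    rw [Option.some.injEq] at h
    rw [← h]
    rfl

/-- The equivariant motivic zeta function `Z_f(T) = ∑_{N ≥ 1} [X_{N,1}] 𝕃 ^ (- n N) T ^ N`. -/
noncomputable def zetaMu (f : MvPolynomial (Fin n) k) : PowerSeries (MKMu f) :=
  PowerSeries.mk fun N => if h : 0 < N then
    algebraMap (K0Mu f) (MKMu f) (K0Mu.mk (diagVar (jetValid f N h))) *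
      (((LuMu f) ^ (-((n * N : ℕ) : ℤ)) : (MKMu f)ˣ) : MKMu f) else 0

/-- The power series `1 / (1 - 𝕃 ^ a T ^ b)`, for `b > 0`. -/
noncomputable def geoMu (f : MvPolynomial (Fin n) k) (a b : ℤ) : PowerSeries (MKMu f) :=
  PowerSeries.invOfUnit (1 - PowerSeries.C (((LuMu f) ^ a : (MKMu f)ˣ) : MKMu f) *
    PowerSeries.X ^ b.toNat) 1

/-- The subring `𝓜[T, 1 / (1 - 𝕃 ^ a T ^ b)]_{(a,b) ∈ S}` of `𝓜[[T]]`, `𝓜 = 𝓜^μ̂_{X_s}`. -/
noncomputable def ratRingMu (f : MvPolynomial (Fin n) k) (S : Set (ℤ × ℤ)) :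
    Subalgebra (MKMu f) (PowerSeries (MKMu f)) :=
  Algebra.adjoin (MKMu f) ({PowerSeries.X} ∪ {g | ∃ p ∈ S, g = geoMu f p.1 p.2})

end Jets

/-! ### Additive invariants -/

/-- An additive invariant of `X_s`-varieties with diagonal action. -/
structure EMeas {k : Type} [Field k] {n : ℕ} (f : MvPolynomial (Fin n) k) (R : Type)
    [CommRing R] where
  χ : (ι : Type) → [Fintype ι] → Set (Pt k ι) → (ι → ℤ) → ℕ → (Fin n → Option ι) → R
  L : R
  iso : ∀ {ι κ : Type} [Fintype ι] [Fintype κ] (S : Set (Pt k ι)) (T : Set (Pt k κ))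
    (ρ : ι → ℤ) (ρ' : κ → ℤ) (M M' : ℕ) (β : Fin n → Option ι) (β' : Fin n → Option κ),
    Valid f S ρ M β → Valid f T ρ' M' β' →
    ∀ (φ : Pt k ι → Pt k κ) (ψ : Pt k κ → Pt k ι), RegularOn S φ → RegularOn T ψ →
    Set.MapsTo φ S T → Set.MapsTo ψ T S → (∀ z ∈ S, ψ (φ z) = z) → (∀ w ∈ T, φ (ψ w) = w) →
    (∀ z ∈ S, cbase β' (φ z) = cbase β z) →
    (∀ l : AlgebraicClosure k, l ^ (M * M') = 1 → ∀ z ∈ S,
      φ (dact ρ (l ^ M') z) = dact ρ' (l ^ M) (φ z)) →
    χ ι S ρ M β = χ κ T ρ' M' β'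
  add : ∀ {ι : Type} [Fintype ι] (S T : Set (Pt k ι)) (ρ : ι → ℤ) (M : ℕ)
    (β : Fin n → Option ι), Valid f S ρ M β → Valid f T ρ M β → Disjoint S T →
    χ ι (S ∪ T) ρ M β = χ ι S ρ M β + χ ι T ρ M β
  aff : ∀ {ι κ : Type} [Fintype ι] [Fintype κ] (S : Set (Pt k ι)) (ρ : ι → ℤ) (ρ' : κ → ℤ)
    (M : ℕ) (β : Fin n → Option ι), Valid f S ρ M β →
    χ (ι ⊕ κ) {z | (fun i => z (Sum.inl i)) ∈ S} (Sum.elim ρ ρ') M
      (fun i => (β i).map Sum.inl) = χ ι S ρ M β * L ^ Fintype.card κ

end Pool.Agent.W428.MOT
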