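import Pool.Agent.W428.MOT.Final
import Pool.Agent.W358.ME.EK0
import Pool.Agent.W230.ME.Free
import Pool.Agent.W366.MESub
import Pool.Agent.W578.ME.Etw
import Pool.Agent.W375.MT.EJsc
import Pool.Agent.W749.ME.EStB
import Pool.Agent.W749.ME.EStC
import Pool.Agent.W605.MEInd
import Pool.Agent.W375.MT.ESum
import Pool.Agent.W63.MEFin

/-!
# Assembly of the project ME
-/

set_option autoImplicit false

namespace Pool.Agent.W428.MOT

theorem sESum : S_ESum := Pool.Agent.W375.MT.ESum.main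
  (Pool.Agent.W375.MT.EJet.main Pool.Agent.W230.ME.Free.main) Pool.Agent.W375.MT.EShift.main
  (Pool.Agent.W375.MT.ECond.main Pool.Agent.W440.MT.ord)
  (Pool.Agent.W749.ME.EStB.main Pool.Agent.W230.ME.Free.main Pool.Agent.W417.MT.Tay.main)
  (Pool.Agent.W749.ME.EStC.main Pool.Agent.W230.ME.Free.main Pool.Agent.W366.MESub.main
    Pool.Agent.W417.MT.Tay.main Pool.Agent.W440.MT.non)
  (Pool.Agent.W605.MEInd.main Pool.Agent.W578.ME.etw)

theorem sEFIN : S_EFIN := Pool.Agent.W63.MEFin.main Pool.Agent.W358.ME.EK0.main sESum sRAT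
  RootC.main Pool.Agent.W346.MTCp1.main

end Pool.Agent.W428.MOT
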