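import Pool.Agent.W428.MOT.RootC
import Pool.Agent.W417.MT.K0
import Pool.Agent.W417.MT.Free
import Pool.Agent.W21.MTSub
import Pool.Agent.W440.MT.OrdNon
import Pool.Agent.W417.MT.Tay
import Pool.Agent.W375.MT.Shift
import Pool.Agent.W346.MTCond
import Pool.Agent.W749.MT.StB
import Pool.Agent.W749.MT.StC
import Pool.Agent.W375.MT.Jet
import Pool.Agent.W375.MT.Sum
import Pool.Agent.W346.MTCp1
import Pool.Agent.W346.MTCp2
import Pool.Agent.W29.MTRat
import Pool.Agent.W63.MTFin
import Pool.Agent.W230.MTZCF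

/-!
# Assembly of the project MT
-/

set_option autoImplicit false

namespace Pool.Agent.W428.MOT

theorem sCond : S_Cond := Pool.Agent.W346.MTCond.main Pool.Agent.W440.MT.ord

theorem sStB : S_StB := Pool.Agent.W749.MT.StB.main Pool.Agent.W417.MT.Free.main
  Pool.Agent.W417.MT.Tay.main

theorem sStC : S_StC := Pool.Agent.W749.MT.StC.main Pool.Agent.W417.MT.Free.main
  Pool.Agent.W21.MTSub.main Pool.Agent.W417.MT.Tay.main Pool.Agent.W440.MT.non

theorem sSum : S_Sum := Pool.Agent.W375.MT.Sum.main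
  (Pool.Agent.W375.MT.Jet.main Pool.Agent.W417.MT.Free.main) Pool.Agent.W375.MT.Shift.main
  sCond sStB sStC

theorem sRAT : S_RAT := Pool.Agent.W29.MTRat.main Pool.Agent.W346.MTCp2.main
  Pool.Agent.W230.MTZCF.main

theorem sFIN : S_FIN := Pool.Agent.W63.MTFin.main Pool.Agent.W417.MT.K0.main sSum sRAT
  RootC.main Pool.Agent.W346.MTCp1.main

end Pool.Agent.W428.MOT
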