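import Pool.Agent.W428.MOT.Defs

/-!
# Tools: constructible sets, polynomial functions, regular maps, additive invariants
-/

set_option autoImplicit false

namespace Pool.Agent.W428.MOT

open MvPolynomial

variable {K : Type} [Field K] {ι κ : Type}

/-- `F` is given by a polynomial with coefficients in `K`. -/
def IsPF (F : Pt K ι → AlgebraicClosure K) : Prop := ∃ P : MvPolynomial ι K, ∀ z, F z = aeval z P

namespace IsPF

variable {F G : Pt K ι → AlgebraicClosure K}

theorem poly (P : MvPolynomial ι K) : IsPF (fun z : Pt K ι => aeval z P) := ⟨P, fun _ => rfl⟩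

theorem const (a : K) : IsPF (fun _ : Pt K ι => algebraMap K (AlgebraicClosure K) a) :=
  ⟨C a, fun z => by rw [algHom_C]⟩

theorem zero : IsPF (fun _ : Pt K ι => (0 : AlgebraicClosure K)) := ⟨0, fun z => by simp⟩

theorem one : IsPF (fun _ : Pt K ι => (1 : AlgebraicClosure K)) := ⟨1, fun z => by simp⟩

theorem natCast (n : ℕ) : IsPF (fun _ : Pt K ι => (n : AlgebraicClosure K)) :=
  ⟨(n : MvPolynomial ι K), fun z => by simp⟩

theorem coord (i : ι) : IsPF (fun z : Pt K ι => z i) := ⟨X i, fun z => by simp⟩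

theorem add (hF : IsPF F) (hG : IsPF G) : IsPF (fun z => F z + G z) := by
  obtain ⟨P, hP⟩ := hF
  obtain ⟨Q, hQ⟩ := hG
  exact ⟨P + Q, fun z => by simp only [map_add, hP, hQ]⟩

theorem mul (hF : IsPF F) (hG : IsPF G) : IsPF (fun z => F z * G z) := by
  obtain ⟨P, hP⟩ := hF
  obtain ⟨Q, hQ⟩ := hG
  exact ⟨P * Q, fun z => by simp only [map_mul, hP, hQ]⟩

theorem neg (hF : IsPF F) : IsPF (fun z => - F z) := by
  obtain ⟨P, hP⟩ := hF
  exact ⟨-P, fun z => by simp only [map_neg, hP]⟩

theorem sub (hF : IsPF F) (hG : IsPF G) : IsPF (fun z => F z - G z) := by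
  obtain ⟨P, hP⟩ := hF
  obtain ⟨Q, hQ⟩ := hG
  exact ⟨P - Q, fun z => by simp only [map_sub, hP, hQ]⟩

theorem pow (hF : IsPF F) (k : ℕ) : IsPF (fun z => F z ^ k) := by
  obtain ⟨P, hP⟩ := hF
  exact ⟨P ^ k, fun z => by simp only [map_pow, hP]⟩

theorem sum {α : Type} (s : Finset α) (F : α → Pt K ι → AlgebraicClosure K)
    (hF : ∀ a ∈ s, IsPF (F a)) : IsPF (fun z => ∑ a ∈ s, F a z) := by
  classical
  induction s using Finset.induction_on with
  | empty => simpa using zero
  | insert a s ha ih =>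
    simp only [Finset.sum_insert ha]
    exact (hF a (Finset.mem_insert_self _ _)).add
      (ih fun b hb => hF b (Finset.mem_insert_of_mem hb))

theorem prod {α : Type} (s : Finset α) (F : α → Pt K ι → AlgebraicClosure K)
    (hF : ∀ a ∈ s, IsPF (F a)) : IsPF (fun z => ∏ a ∈ s, F a z) := by
  classical
  induction s using Finset.induction_on with
  | empty => simpa using one
  | insert a s ha ih =>
    simp only [Finset.prod_insert ha]
    exact (hF a (Finset.mem_insert_self _ _)).mul
      (ih fun b hb => hF b (Finset.mem_insert_of_mem hb))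

/-- composition with a polynomial map -/
theorem comp {H : Pt K κ → AlgebraicClosure K} (hH : IsPF H) (φ : Pt K ι → Pt K κ)
    (hφ : ∀ i, IsPF (fun z => φ z i)) : IsPF (fun z => H (φ z)) := by
  obtain ⟨P, hP⟩ := hH
  choose Q hQ using hφ
  refine ⟨bind₁ Q P, fun z => ?_⟩
  change H (φ z) = _
  rw [hP, aeval_bind₁]
  have : φ z = fun i => aeval z (Q i) := by
    funext i
    exact hQ i z
  rw [this]

end IsPF

/-- The coefficients of the power series `γ z` are polynomial functions of `z`. -/
def IsPA (γ : Pt K ι → PowerSeries (AlgebraicClosure K)) : Prop :=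
  ∀ j, IsPF (fun z => PowerSeries.coeff j (γ z))

namespace IsPA

variable {γ δ : Pt K ι → PowerSeries (AlgebraicClosure K)}

theorem C {F : Pt K ι → AlgebraicClosure K} (hF : IsPF F) :
    IsPA (fun z => PowerSeries.C (F z)) := by
  intro j
  simp only [PowerSeries.coeff_C]
  split_ifs
  · exact hF
  · exact IsPF.zero

theorem X : IsPA (fun _ : Pt K ι => (PowerSeries.X : PowerSeries (AlgebraicClosure K))) := by
  intro j
  simp only [PowerSeries.coeff_X]
  split_ifs
  · exact IsPF.one
  · exact IsPF.zero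

theorem one : IsPA (fun _ : Pt K ι => (1 : PowerSeries (AlgebraicClosure K))) := by
  intro j
  simp only [PowerSeries.coeff_one]
  split_ifs
  · exact IsPF.one
  · exact IsPF.zero

theorem zero : IsPA (fun _ : Pt K ι => (0 : PowerSeries (AlgebraicClosure K))) := by
  intro j
  simp only [map_zero]
  exact IsPF.zero

theorem add (hγ : IsPA γ) (hδ : IsPA δ) : IsPA (fun z => γ z + δ z) := by
  intro j
  simp only [map_add]
  exact (hγ j).add (hδ j)

theorem mul (hγ : IsPA γ) (hδ : IsPA δ) : IsPA (fun z => γ z * δ z) := by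
  intro j
  simp only [PowerSeries.coeff_mul]
  exact IsPF.sum _ _ fun p _ => (hγ p.1).mul (hδ p.2)

theorem pow (hγ : IsPA γ) (k : ℕ) : IsPA (fun z => γ z ^ k) := by
  induction k with
  | zero => simpa using one
  | succ k ih =>
    simp only [pow_succ]
    exact ih.mul hγ

theorem sum {α : Type} (s : Finset α) (γ : α → Pt K ι → PowerSeries (AlgebraicClosure K))
    (h : ∀ a ∈ s, IsPA (γ a)) : IsPA (fun z => ∑ a ∈ s, γ a z) := by
  classical
  induction s using Finset.induction_on with
  | empty => simpa using zero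
  | insert a s ha ih =>
    simp only [Finset.sum_insert ha]
    exact (h a (Finset.mem_insert_self _ _)).add
      (ih fun b hb => h b (Finset.mem_insert_of_mem hb))

theorem prod {α : Type} (s : Finset α) (γ : α → Pt K ι → PowerSeries (AlgebraicClosure K))
    (h : ∀ a ∈ s, IsPA (γ a)) : IsPA (fun z => ∏ a ∈ s, γ a z) := by
  classical
  induction s using Finset.induction_on with
  | empty => simpa using one
  | insert a s ha ih =>
    simp only [Finset.prod_insert ha]
    exact (h a (Finset.mem_insert_self _ _)).mul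
      (ih fun b hb => h b (Finset.mem_insert_of_mem hb))

/-- substitution of arcs in a polynomial -/
theorem aeval {n : ℕ} (γ : Fin n → Pt K ι → PowerSeries (AlgebraicClosure K))
    (h : ∀ i, IsPA (γ i)) (f : MvPolynomial (Fin n) K) :
    IsPA (fun z => MvPolynomial.aeval (fun i => γ i z) f) := by
  induction f using MvPolynomial.induction_on with
  | C a =>
    simp only [MvPolynomial.algHom_C, PowerSeries.algebraMap_apply]
    exact C (IsPF.const a)
  | add p q hp hq =>
    simp only [map_add]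
    exact hp.add hq
  | mul_X p i hp =>
    simp only [map_mul, MvPolynomial.aeval_X]
    exact hp.mul (h i)

end IsPA

theorem isPA_arc {n N : ℕ} (i : Fin n) :
    IsPA (fun z : Pt K (Fin n × Fin (N + 1)) => arc z i) := by
  intro j
  simp only [arc, PowerSeries.coeff_mk]
  split_ifs with h
  · exact IsPF.coord _
  · exact IsPF.zero

/-! ### constructible sets -/

theorem Constr.eqz {F : Pt K ι → AlgebraicClosure K} (hF : IsPF F) :
    Constr {z : Pt K ι | F z = 0} := by
  obtain ⟨P, hP⟩ := hF
  have := Constr.zero P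
  simpa only [← hP] using this

theorem Constr.eq {F G : Pt K ι → AlgebraicClosure K} (hF : IsPF F) (hG : IsPF G) :
    Constr {z : Pt K ι | F z = G z} := by
  have := Constr.eqz (hF.sub hG)
  simpa only [sub_eq_zero] using this

theorem Constr.univ : Constr (Set.univ : Set (Pt K ι)) := by
  have := Constr.eqz (K := K) (ι := ι) IsPF.zero
  simpa using this

theorem Constr.empty : Constr (∅ : Set (Pt K ι)) := by
  simpa using (Constr.univ (K := K) (ι := ι)).compl

theorem Constr.not {p : Pt K ι → Prop} (h : Constr {z | p z}) : Constr {z | ¬ p z} := h.compl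

theorem Constr.ne {F G : Pt K ι → AlgebraicClosure K} (hF : IsPF F) (hG : IsPF G) :
    Constr {z : Pt K ι | F z ≠ G z} := (Constr.eq hF hG).compl

theorem Constr.and {p q : Pt K ι → Prop} (hp : Constr {z | p z}) (hq : Constr {z | q z}) :
    Constr {z | p z ∧ q z} := hp.inter hq

theorem Constr.union {S T : Set (Pt K ι)} (hS : Constr S) (hT : Constr T) : Constr (S ∪ T) := by
  have := (hS.compl.inter hT.compl).compl
  rwa [← Set.compl_union, compl_compl] at this

theorem Constr.or {p q : Pt K ι → Prop} (hp : Constr {z | p z}) (hq : Constr {z | q z}) :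
    Constr {z | p z ∨ q z} := hp.union hq

theorem Constr.imp {p q : Pt K ι → Prop} (hp : Constr {z | p z}) (hq : Constr {z | q z}) :
    Constr {z | p z → q z} := by
  have : {z : Pt K ι | p z → q z} = {z | ¬ p z ∨ q z} := by
    ext z; simp only [Set.mem_ofPred_eq]; tauto
  rw [this]
  exact hp.not.or hq

theorem Constr.const (p : Prop) : Constr {_z : Pt K ι | p} := by
  by_cases h : p
  · simpa [h] using Constr.univ (K := K) (ι := ι)
  · simpa [h] using Constr.empty (K := K) (ι := ι)

/-- a condition preceded by a hypothesis that does not depend on the point -/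
theorem Constr.imp' {p : Prop} {q : p → Pt K ι → Prop} (hq : ∀ h, Constr {z | q h z}) :
    Constr {z | ∀ h : p, q h z} := by
  by_cases h : p
  · simpa [h] using hq h
  · simpa [h] using Constr.univ (K := K) (ι := ι)

theorem Constr.ballFinset {α : Type} (s : Finset α) {p : α → Pt K ι → Prop}
    (h : ∀ a ∈ s, Constr {z | p a z}) : Constr {z | ∀ a ∈ s, p a z} := by
  classical
  induction s using Finset.induction_on with
  | empty => simpa using Constr.univ (K := K) (ι := ι)
  | insert a s ha ih =>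
    have : {z : Pt K ι | ∀ b ∈ insert a s, p b z} = {z | p a z ∧ ∀ b ∈ s, p b z} := by
      ext z; simp
    rw [this]
    exact (h a (Finset.mem_insert_self _ _)).and
      (ih fun b hb => h b (Finset.mem_insert_of_mem hb))

theorem Constr.all {α : Type} [Finite α] {p : α → Pt K ι → Prop}
    (h : ∀ a, Constr {z | p a z}) : Constr {z | ∀ a, p a z} := by
  classical
  have := Fintype.ofFinite α
  have h1 := Constr.ballFinset (Finset.univ : Finset α) (fun a _ => h a)
  simpa using h1

theorem Constr.bexFinset {α : Type} (s : Finset α) {p : α → Pt K ι → Prop}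
    (h : ∀ a ∈ s, Constr {z | p a z}) : Constr {z | ∃ a ∈ s, p a z} := by
  have h1 := (Constr.ballFinset s (p := fun a z => ¬ p a z) fun a ha => (h a ha).not).not
  have : {z : Pt K ι | ∃ a ∈ s, p a z} = {z | ¬ ∀ a ∈ s, ¬ p a z} := by
    ext z; simp
  rw [this]
  exact h1

theorem Constr.ex {α : Type} [Finite α] {p : α → Pt K ι → Prop}
    (h : ∀ a, Constr {z | p a z}) : Constr {z | ∃ a, p a z} := by
  classical
  have := Fintype.ofFinite α
  have h1 := Constr.bexFinset (Finset.univ : Finset α) (fun a _ => h a)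
  simpa using h1

theorem Constr.allLt {p : ℕ → Pt K ι → Prop} (N : ℕ) (h : ∀ a < N, Constr {z | p a z}) :
    Constr {z | ∀ a < N, p a z} := by
  have := Constr.ballFinset (Finset.range N) (p := p) fun a ha => h a (Finset.mem_range.mp ha)
  simpa using this

theorem Constr.allLe {p : ℕ → Pt K ι → Prop} (N : ℕ) (h : ∀ a ≤ N, Constr {z | p a z}) :
    Constr {z | ∀ a ≤ N, p a z} := by
  have := Constr.allLt (p := p) (N + 1) fun a ha => h a (Nat.lt_succ_iff.mp ha)
  simpa only [Nat.lt_succ_iff] using this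

/-- the preimage of a constructible set under a polynomial map -/
theorem Constr.preimage {S : Set (Pt K κ)} (hS : Constr S) (φ : Pt K ι → Pt K κ)
    (hφ : ∀ i, IsPF (fun z => φ z i)) : Constr {z | φ z ∈ S} := by
  induction hS with
  | zero P => exact Constr.eqz ((IsPF.poly P).comp φ hφ)
  | compl _ ih => exact ih.compl
  | inter _ _ ih1 ih2 => exact ih1.inter ih2

/-! ### regular maps -/

/-- a function which is a quotient of polynomials on `S` -/
def IsRF (S : Set (Pt K ι)) (F : Pt K ι → AlgebraicClosure K) : Prop :=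
  ∃ P Q : MvPolynomial ι K, ∀ z ∈ S, aeval z Q ≠ 0 ∧ F z = aeval z P / aeval z Q

theorem IsPF.isRF {F : Pt K ι → AlgebraicClosure K} (hF : IsPF F) (S : Set (Pt K ι)) :
    IsRF S F := by
  obtain ⟨P, hP⟩ := hF
  exact ⟨P, 1, fun z _ => by simp [hP]⟩

theorem IsRF.add {S : Set (Pt K ι)} {F G : Pt K ι → AlgebraicClosure K} (hF : IsRF S F)
    (hG : IsRF S G) : IsRF S (fun z => F z + G z) := by
  obtain ⟨P, Q, h⟩ := hF
  obtain ⟨P', Q', h'⟩ := hG
  refine ⟨P * Q' + P' * Q, Q * Q', fun z hz => ?_⟩
  obtain ⟨h1, h2⟩ := h z hz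
  obtain ⟨h3, h4⟩ := h' z hz
  refine ⟨by rw [map_mul]; exact mul_ne_zero h1 h3, ?_⟩
  simp only [h2, h4, map_add, map_mul]
  field_simp

theorem IsRF.mul {S : Set (Pt K ι)} {F G : Pt K ι → AlgebraicClosure K} (hF : IsRF S F)
    (hG : IsRF S G) : IsRF S (fun z => F z * G z) := by
  obtain ⟨P, Q, h⟩ := hF
  obtain ⟨P', Q', h'⟩ := hG
  refine ⟨P * P', Q * Q', fun z hz => ?_⟩
  obtain ⟨h1, h2⟩ := h z hz
  obtain ⟨h3, h4⟩ := h' z hz
  refine ⟨by rw [map_mul]; exact mul_ne_zero h1 h3, ?_⟩
  simp only [h2, h4, map_mul]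
  field_simp

theorem IsRF.sub {S : Set (Pt K ι)} {F G : Pt K ι → AlgebraicClosure K} (hF : IsRF S F)
    (hG : IsRF S G) : IsRF S (fun z => F z - G z) := by
  obtain ⟨P, Q, h⟩ := hF
  obtain ⟨P', Q', h'⟩ := hG
  refine ⟨P * Q' - P' * Q, Q * Q', fun z hz => ?_⟩
  obtain ⟨h1, h2⟩ := h z hz
  obtain ⟨h3, h4⟩ := h' z hz
  refine ⟨by rw [map_mul]; exact mul_ne_zero h1 h3, ?_⟩
  simp only [h2, h4, map_sub, map_mul]
  field_simp

theorem IsRF.div {S : Set (Pt K ι)} {F G : Pt K ι → AlgebraicClosure K} (hF : IsRF S F)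
    (hG : IsRF S G) (h0 : ∀ z ∈ S, G z ≠ 0) : IsRF S (fun z => F z / G z) := by
  obtain ⟨P, Q, h⟩ := hF
  obtain ⟨P', Q', h'⟩ := hG
  refine ⟨P * Q', Q * P', fun z hz => ?_⟩
  obtain ⟨h1, h2⟩ := h z hz
  obtain ⟨h3, h4⟩ := h' z hz
  have h5 : aeval z P' ≠ 0 := by
    intro h0'
    exact h0 z hz (by rw [h4, h0', zero_div])
  refine ⟨by rw [map_mul]; exact mul_ne_zero h1 h5, ?_⟩
  simp only [h2, h4, map_mul]
  field_simp

theorem IsRF.congr {S : Set (Pt K ι)} {F G : Pt K ι → AlgebraicClosure K} (hF : IsRF S F)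
    (h : ∀ z ∈ S, G z = F z) : IsRF S G := by
  obtain ⟨P, Q, h'⟩ := hF
  exact ⟨P, Q, fun z hz => ⟨(h' z hz).1, by rw [h z hz]; exact (h' z hz).2⟩⟩

theorem regularOn_iff {S : Set (Pt K ι)} {f : Pt K ι → Pt K κ} :
    RegularOn S f ↔ ∀ i, IsRF S (fun z => f z i) := Iff.rfl

theorem regularOn_poly {f : Pt K ι → Pt K κ} (h : ∀ i, IsPF (fun z => f z i))
    (S : Set (Pt K ι)) : RegularOn S f := fun i => (h i).isRF S

/-! ### additive invariants -/

/-- An additive invariant of varieties over `K` with values in the ring `R`. -/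
structure Meas (K : Type) [Field K] (R : Type) [CommRing R] where
  χ : (ι : Type) → [Fintype ι] → Set (Pt K ι) → R
  iso : ∀ {ι κ : Type} [Fintype ι] [Fintype κ] (S : Set (Pt K ι)) (T : Set (Pt K κ)),
    Constr S → Constr T → ∀ (f : Pt K ι → Pt K κ) (g : Pt K κ → Pt K ι), RegularOn S f →
    RegularOn T g → Set.MapsTo f S T → Set.MapsTo g T S → (∀ z ∈ S, g (f z) = z) →
    (∀ w ∈ T, f (g w) = w) → χ ι S = χ κ T
  add : ∀ {ι : Type} [Fintype ι] (S T : Set (Pt K ι)), Constr S → Constr T → Disjoint S T →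
    χ ι (S ∪ T) = χ ι S + χ ι T
  prod : ∀ {ι κ : Type} [Fintype ι] [Fintype κ] (S : Set (Pt K ι)) (T : Set (Pt K κ)),
    Constr S → Constr T →
    χ (ι ⊕ κ) {z | (fun i => z (Sum.inl i)) ∈ S ∧ (fun i => z (Sum.inr i)) ∈ T} =
      χ ι S * χ κ T
  point : ∀ {ι : Type} [Fintype ι] [IsEmpty ι], χ ι (Set.univ : Set (Pt K ι)) = 1

/-- the class of the affine line -/
def Meas.L {R : Type} [CommRing R] (M : Meas K R) : R := M.χ (Fin 1) Set.univ

end Pool.Agent.W428.MOT
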